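import Mathlib

set_option autoImplicit false

/-!
Sets of Boolean vectors closed under a coordinatewise operation which is not affine.
-/

namespace Pool.Agent.H523R4.BC

/-- affine Boolean functions -/
def IsAffine {k : ℕ} (f : (Fin k → Bool) → Bool) : Prop :=
  ∀ x y z : Fin k → Bool, f (fun i => (x i ^^ y i) ^^ z i) = ((f x ^^ f y) ^^ f z)

/-- `C` is closed under the coordinatewise operation `f` -/
def Closed {ι : Type} {k : ℕ} (f : (Fin k → Bool) → Bool) (C : Set (ι → Bool)) : Prop :=
  ∀ a : Fin k → (ι → Bool), (∀ i, a i ∈ C) → (fun j => f (fun i => a i j)) ∈ C

theorem affine_of_additive {k : ℕ} (f : (Fin k → Bool) → Bool)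
    (h : ∀ x y : Fin k → Bool, (∀ i, x i = true → y i = false) →
      f (fun i => x i || y i) = (f x ^^ f y)) : IsAffine f := by
  have hadd : ∀ x y : Fin k → Bool, f (fun i => x i ^^ y i) = (f x ^^ f y) := by
    intro x y
    have h1 := h (fun i => x i && !y i) (fun i => !x i && y i) (by
      intro i; cases x i <;> cases y i <;> simp)
    have h2 := h (fun i => x i && !y i) (fun i => x i && y i) (by
      intro i; cases x i <;> cases y i <;> simp)
    have h3 := h (fun i => !x i && y i) (fun i => x i && y i) (by
      intro i; cases x i <;> cases y i <;> simp)
    have e1 : (fun i => (x i && !y i) || (!x i && y i)) = (fun i => x i ^^ y i) := by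
      funext i; cases x i <;> cases y i <;> rfl
    have e2 : (fun i => (x i && !y i) || (x i && y i)) = x := by
      funext i; cases x i <;> cases y i <;> rfl
    have e3 : (fun i => (!x i && y i) || (x i && y i)) = y := by
      funext i; cases x i <;> cases y i <;> rfl
    rw [e1] at h1
    rw [e2] at h2
    rw [e3] at h3
    rw [h1, h2, h3]
    generalize f (fun i => x i && !y i) = p
    generalize f (fun i => !x i && y i) = q
    generalize f (fun i => x i && y i) = r
    cases p <;> cases q <;> cases r <;> rfl
  intro x y z
  have h1 := hadd (fun i => x i ^^ y i) z
  rw [hadd x y] at h1
  exact h1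

theorem exists_disjoint {k : ℕ} (f : (Fin k → Bool) → Bool) (hf : ¬ IsAffine f) :
    ∃ x y : Fin k → Bool, (∀ i, x i = true → y i = false) ∧
      f (fun i => x i || y i) ≠ (f x ^^ f y) := by
  by_contra hcon
  push Not at hcon
  exact hf (affine_of_additive f hcon)

/-- closed under and, or, or majority -/
theorem clone {ι : Type} {k : ℕ} (f : (Fin k → Bool) → Bool) (hf : ¬ IsAffine f)
    (h0 : f (fun _ => false) = false) (C : Set (ι → Bool)) (hC : Closed f C)
    (hne : C.Nonempty) :
    (∀ x ∈ C, ∀ y ∈ C, (fun j => x j && y j) ∈ C) ∨
    (∀ x ∈ C, ∀ y ∈ C, (fun j => x j || y j) ∈ C) ∨
    (∀ x ∈ C, ∀ y ∈ C, ∀ z ∈ C,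
      (fun j => ((x j && y j) || (x j && z j)) || (y j && z j)) ∈ C) := by
  obtain ⟨x, y, hxy, hne2⟩ := exists_disjoint f hf
  cases h1 : f (fun _ => true) with
  | false =>
    obtain ⟨c, hc⟩ := hne
    have hzero : (fun _ : ι => false) ∈ C := by
      have h2 := hC (fun _ => c) (fun _ => hc)
      have h3 : (fun j => f (fun _ : Fin k => c j)) = (fun _ : ι => false) := by
        funext j
        cases c j with
        | false => exact h0
        | true => exact h1
      rw [h3] at h2
      exact h2
    set h : Bool → Bool → Bool :=
      fun p q => f (fun i => if x i = true then p else if y i = true then q else false) with hh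
    have hcl : ∀ u ∈ C, ∀ v ∈ C, (fun j => h (u j) (v j)) ∈ C := by
      intro u hu v hv
      have h2 := hC (fun i => if x i = true then u else if y i = true then v else fun _ => false)
        (by
          intro i
          split_ifs
          · exact hu
          · exact hv
          · exact hzero)
      have h3 : (fun j => f (fun i => (if x i = true then u else if y i = true then v
          else fun _ => false) j)) = (fun j => h (u j) (v j)) := by
        funext j
        rw [hh]
        dsimp only
        congr 1
        funext i
        split_ifs <;> rfl
      rw [h3] at h2
      exact h2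
    have v00 : h false false = false := by
      refine Eq.trans ?_ h0; rw [hh]; dsimp only; congr 1; funext i; split_ifs <;> rfl
    have v10 : h true false = f x := by
      rw [hh]; dsimp only; congr 1; funext i; cases x i <;> cases y i <;> simp
    have v01 : h false true = f y := by
      rw [hh]; dsimp only; congr 1; funext i
      have := hxy i
      cases hx : x i <;> cases hy : y i <;> simp_all
    have v11 : h true true = f (fun i => x i || y i) := by
      rw [hh]; dsimp only; congr 1; funext i; cases x i <;> cases y i <;> simp
    clear_value h
    cases ha : f x <;> cases hb : f y <;> cases hc' : f (fun i => x i || y i) <;>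
      rw [ha] at v10 <;> rw [hb] at v01 <;> rw [hc'] at v11 <;>
      rw [ha, hb, hc'] at hne2 <;> try (exact absurd rfl hne2)
    · left
      intro u hu v hv
      have h2 := hcl u hu v hv
      have h3 : (fun j => h (u j) (v j)) = (fun j => u j && v j) := by
        funext j; cases u j <;> cases v j <;> simp [v00, v10, v01, v11]
      rw [h3] at h2
      exact h2
    · left
      intro u hu v hv
      have h2 := hcl _ (hcl u hu v hv) v hv
      have h3 : (fun j => h (h (u j) (v j)) (v j)) = (fun j => u j && v j) := by
        funext j; cases u j <;> cases v j <;> simp [v00, v10, v01, v11]
      rw [h3] at h2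
      exact h2
    · left
      intro u hu v hv
      have h2 := hcl u hu _ (hcl u hu v hv)
      have h3 : (fun j => h (u j) (h (u j) (v j))) = (fun j => u j && v j) := by
        funext j; cases u j <;> cases v j <;> simp [v00, v10, v01, v11]
      rw [h3] at h2
      exact h2
    · right; left
      intro u hu v hv
      have h2 := hcl u hu v hv
      have h3 : (fun j => h (u j) (v j)) = (fun j => u j || v j) := by
        funext j; cases u j <;> cases v j <;> simp [v00, v10, v01, v11]
      rw [h3] at h2
      exact h2
  | true =>
    by_cases hsd : ∃ w : Fin k → Bool, f w = f (fun i => !w i)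
    · obtain ⟨w, hw⟩ := hsd
      set h : Bool → Bool → Bool := fun p q => f (fun i => if w i = true then p else q) with hh
      have hcl : ∀ u ∈ C, ∀ v ∈ C, (fun j => h (u j) (v j)) ∈ C := by
        intro u hu v hv
        have h2 := hC (fun i => if w i = true then u else v) (by
            intro i
            split_ifs
            · exact hu
            · exact hv)
        have h3 : (fun j => f (fun i => (if w i = true then u else v) j)) =
            (fun j => h (u j) (v j)) := by
          funext j
          rw [hh]
          dsimp only
          congr 1
          funext i
          split_ifs <;> rfl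
        rw [h3] at h2
        exact h2
      have v00 : h false false = false := by
        refine Eq.trans ?_ h0; rw [hh]; dsimp only; congr 1; funext i; split_ifs <;> rfl
      have v10 : h true false = f w := by
        rw [hh]; dsimp only; congr 1; funext i; cases w i <;> simp
      have v01 : h false true = f w := by
        rw [hh, hw]; dsimp only; congr 1; funext i; cases w i <;> simp
      have v11 : h true true = true := by
        refine Eq.trans ?_ h1; rw [hh]; dsimp only; congr 1; funext i; split_ifs <;> rfl
      clear_value h
      cases ha : f w <;> rw [ha] at v10 v01
      · left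
        intro u hu v hv
        have h2 := hcl u hu v hv
        have h3 : (fun j => h (u j) (v j)) = (fun j => u j && v j) := by
          funext j; cases u j <;> cases v j <;> simp [v00, v10, v01, v11]
        rw [h3] at h2
        exact h2
      · right; left
        intro u hu v hv
        have h2 := hcl u hu v hv
        have h3 : (fun j => h (u j) (v j)) = (fun j => u j || v j) := by
          funext j; cases u j <;> cases v j <;> simp [v00, v10, v01, v11]
        rw [h3] at h2
        exact h2
    · push Not at hsd
      have hself : ∀ w : Fin k → Bool, f (fun i => !w i) = !f w := by
        intro w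
        have := hsd w
        cases h2 : f w <;> cases h3 : f (fun i => !w i) <;> simp_all
      set t : Bool → Bool → Bool → Bool :=
        fun p q r => f (fun i => if x i = true then p else if y i = true then q else r) with ht
      have hcl : ∀ u ∈ C, ∀ v ∈ C, ∀ w ∈ C, (fun j => t (u j) (v j) (w j)) ∈ C := by
        intro u hu v hv w hw
        have h2 := hC (fun i => if x i = true then u else if y i = true then v else w)
          (by
            intro i
            split_ifs
            · exact hu
            · exact hv
            · exact hw)
        have h3 : (fun j => f (fun i => (if x i = true then u else if y i = true then v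
            else w) j)) = (fun j => t (u j) (v j) (w j)) := by
          funext j
          rw [ht]
          dsimp only
          congr 1
          funext i
          split_ifs <;> rfl
        rw [h3] at h2
        exact h2
      have v000 : t false false false = false := by
        refine Eq.trans ?_ h0; rw [ht]; dsimp only; congr 1; funext i; split_ifs <;> rfl
      have v111 : t true true true = true := by
        refine Eq.trans ?_ h1; rw [ht]; dsimp only; congr 1; funext i; split_ifs <;> rfl
      have v100 : t true false false = f x := by
        rw [ht]; dsimp only; congr 1; funext i; cases x i <;> cases y i <;> simp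
      have v010 : t false true false = f y := by
        rw [ht]; dsimp only; congr 1; funext i
        have := hxy i
        cases hx : x i <;> cases hy : y i <;> simp_all
      have v110 : t true true false = f (fun i => x i || y i) := by
        rw [ht]; dsimp only; congr 1; funext i; cases x i <;> cases y i <;> simp
      have v011 : t false true true = !f x := by
        rw [← hself x, ht]; dsimp only; congr 1; funext i; cases x i <;> cases y i <;> simp
      have v101 : t true false true = !f y := by
        rw [← hself y, ht]; dsimp only; congr 1; funext i
        have := hxy i
        cases hx : x i <;> cases hy : y i <;> simp_all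
      have v001 : t false false true = !f (fun i => x i || y i) := by
        rw [← hself, ht]; dsimp only; congr 1; funext i; cases x i <;> cases y i <;> simp
      clear_value t
      right; right
      cases ha : f x <;> cases hb : f y <;> cases hc' : f (fun i => x i || y i) <;>
        rw [ha] at v100 v011 <;> rw [hb] at v010 v101 <;> rw [hc'] at v110 v001 <;>
        rw [ha, hb, hc'] at hne2 <;> try (exact absurd rfl hne2)
      · intro u hu v hv w hw
        have h2 := hcl u hu v hv w hw
        have h3 : (fun j => t (u j) (v j) (w j)) =
            (fun j => ((u j && v j) || (u j && w j)) || (v j && w j)) := by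
          funext j; cases u j <;> cases v j <;> cases w j <;>
            simp [v000, v100, v010, v001, v110, v101, v011, v111]
        rw [h3] at h2
        exact h2
      · intro u hu v hv w hw
        have h2 := hcl _ (hcl u hu v hv w hw) v hv w hw
        have h3 : (fun j => t (t (u j) (v j) (w j)) (v j) (w j)) =
            (fun j => ((u j && v j) || (u j && w j)) || (v j && w j)) := by
          funext j; cases u j <;> cases v j <;> cases w j <;>
            simp [v000, v100, v010, v001, v110, v101, v011, v111]
        rw [h3] at h2
        exact h2
      · intro u hu v hv w hw
        have h2 := hcl u hu _ (hcl u hu v hv w hw) w hw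
        have h3 : (fun j => t (u j) (t (u j) (v j) (w j)) (w j)) =
            (fun j => ((u j && v j) || (u j && w j)) || (v j && w j)) := by
          funext j; cases u j <;> cases v j <;> cases w j <;>
            simp [v000, v100, v010, v001, v110, v101, v011, v111]
        rw [h3] at h2
        exact h2
      · intro u hu v hv w hw
        have h2 := hcl u hu v hv _ (hcl u hu v hv w hw)
        have h3 : (fun j => t (u j) (v j) (t (u j) (v j) (w j))) =
            (fun j => ((u j && v j) || (u j && w j)) || (v j && w j)) := by
          funext j; cases u j <;> cases v j <;> cases w j <;>
            simp [v000, v100, v010, v001, v110, v101, v011, v111]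
        rw [h3] at h2
        exact h2

/-- after a translation the set is closed under intersections -/
theorem translate {ι : Type} {k : ℕ} (f : (Fin k → Bool) → Bool) (hf : ¬ IsAffine f)
    (h0 : f (fun _ => false) = false) (C : Set (ι → Bool)) (hC : Closed f C)
    (hne : C.Nonempty) :
    ∃ z : ι → Bool, ∀ x ∈ C, ∀ y ∈ C,
      (fun j => ((x j ^^ z j) && (y j ^^ z j)) ^^ z j) ∈ C := by
  obtain ⟨c, hc⟩ := id hne
  rcases clone f hf h0 C hC hne with h | h | h
  · refine ⟨fun _ => false, fun x hx y hy => ?_⟩
    have h2 := h x hx y hy
    have h3 : (fun j => ((x j ^^ false) && (y j ^^ false)) ^^ false) =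
        (fun j => x j && y j) := by
      funext j; cases x j <;> cases y j <;> rfl
    rw [h3]
    exact h2
  · refine ⟨fun _ => true, fun x hx y hy => ?_⟩
    have h2 := h x hx y hy
    have h3 : (fun j => ((x j ^^ true) && (y j ^^ true)) ^^ true) =
        (fun j => x j || y j) := by
      funext j; cases x j <;> cases y j <;> rfl
    rw [h3]
    exact h2
  · refine ⟨c, fun x hx y hy => ?_⟩
    have h2 := h x hx y hy c hc
    have h3 : (fun j => ((x j ^^ c j) && (y j ^^ c j)) ^^ c j) =
        (fun j => ((x j && y j) || (x j && c j)) || (y j && c j)) := by
      funext j; cases x j <;> cases y j <;> cases c j <;> rfl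
    rw [h3]
    exact h2

end Pool.Agent.H523R4.BC
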