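import Mathlib

set_option autoImplicit false

/-!
Large intersection closed families contain large cubes.
-/

namespace Pool.Agent.H523R4.BC

open Finset

theorem card_small' (n t : ℕ) :
    (((range n).powerset).filter (fun s => s.card ≤ t)).card ≤
      ∑ k ∈ range (t + 1), n.choose k := by
  have h1 : ((range n).powerset).filter (fun s => s.card ≤ t) ⊆
      (range (t + 1)).biUnion (fun k => (range n).powersetCard k) := by
    intro s hs
    rw [mem_filter, mem_powerset] at hs
    rw [mem_biUnion]
    exact ⟨s.card, mem_range.2 (by omega), mem_powersetCard.2 ⟨hs.1, rfl⟩⟩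
  calc _ ≤ _ := card_le_card h1
    _ ≤ ∑ k ∈ range (t + 1), ((range n).powersetCard k).card := card_biUnion_le
    _ = ∑ k ∈ range (t + 1), n.choose k := by
        refine sum_congr rfl fun k _ => ?_
        rw [card_powersetCard, card_range]

theorem card_small (n t : ℕ) :
    (((range n).powerset).filter (fun s => s.card ≤ t)).card ≤ (n + 1) ^ t := by
  have h1 : ((range n).powerset).filter (fun s => s.card ≤ t) ⊆
      (range (t + 1)).biUnion (fun k => (range n).powersetCard k) := by
    intro s hs
    rw [mem_filter, mem_powerset] at hs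
    rw [mem_biUnion]
    exact ⟨s.card, mem_range.2 (by omega), mem_powersetCard.2 ⟨hs.1, rfl⟩⟩
  calc _ ≤ _ := card_le_card h1
    _ ≤ ∑ k ∈ range (t + 1), ((range n).powersetCard k).card := card_biUnion_le
    _ ≤ ∑ k ∈ range (t + 1), n ^ k * 1 ^ (t - k) * (t.choose k) := by
        refine sum_le_sum fun k hk => ?_
        rw [card_powersetCard, card_range, one_pow, mul_one]
        have h2 : 1 ≤ t.choose k := Nat.choose_pos (by rw [mem_range] at hk; omega)
        calc n.choose k ≤ n ^ k := Nat.choose_le_pow n k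
          _ = n ^ k * 1 := (mul_one _).symm
          _ ≤ n ^ k * t.choose k := Nat.mul_le_mul_left _ h2
    _ = (n + 1) ^ t := (add_pow n 1 t).symm

/-- greedy choice of a set without prescribed pairs -/
theorem indep (J : Finset ℕ) (p : ℕ → Finset ℕ) (hp : ∀ j ∈ J, (p j).card = 2) (D L : ℕ)
    (hL : 2 * J.card < L * (D + 1)) :
    ∀ (m : ℕ) (T : Finset ℕ), L + m * (D + 1) ≤ T.card →
      ∃ T' ⊆ T, T'.card = m ∧ ∀ j ∈ J, ¬ p j ⊆ T' := by
  intro m
  induction m with
  | zero =>
    intro T _
    refine ⟨∅, empty_subset _, rfl, fun j hj h => ?_⟩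
    have h1 := card_le_card h
    rw [hp j hj, card_empty] at h1
    omega
  | succ m ih =>
    intro T hT
    have hdeg : ∃ i ∈ T, (J.filter (fun j => i ∈ p j)).card ≤ D := by
      by_contra hcon
      push Not at hcon
      have h1 : T.card * (D + 1) ≤ ∑ i ∈ T, (J.filter (fun j => i ∈ p j)).card := by
        rw [← smul_eq_mul]
        exact card_nsmul_le_sum _ _ _ (fun i hi => hcon i hi)
      have h2 : ∑ i ∈ T, (J.filter (fun j => i ∈ p j)).card =
          ∑ j ∈ J, (T.filter (fun i => i ∈ p j)).card := by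
        simp only [card_filter]
        exact sum_comm
      have h3 : ∑ j ∈ J, (T.filter (fun i => i ∈ p j)).card ≤ J.card * 2 := by
        rw [← smul_eq_mul]
        refine sum_le_card_nsmul _ _ _ fun j hj => ?_
        rw [← hp j hj]
        refine card_le_card fun i hi => ?_
        exact (mem_filter.1 hi).2
      have h4 : L ≤ T.card := by omega
      have h5 : L * (D + 1) ≤ T.card * (D + 1) := Nat.mul_le_mul_right _ h4
      omega
    obtain ⟨i, hiT, hi⟩ := hdeg
    set N := (J.filter (fun j => i ∈ p j)).biUnion (fun j => (p j).erase i) with hN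
    have hNc : N.card ≤ D := by
      calc N.card ≤ ∑ j ∈ J.filter (fun j => i ∈ p j), ((p j).erase i).card := card_biUnion_le
        _ ≤ ∑ j ∈ J.filter (fun j => i ∈ p j), 1 := by
            refine sum_le_sum fun j hj => ?_
            rw [mem_filter] at hj
            rw [card_erase_of_mem hj.2, hp j hj.1]
        _ = (J.filter (fun j => i ∈ p j)).card := by simp
        _ ≤ D := hi
    have hT1 : L + m * (D + 1) ≤ ((T.erase i) \ N).card := by
      have h1 : (T.erase i).card = T.card - 1 := card_erase_of_mem hiT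
      have h2 : (T.erase i).card - N.card ≤ ((T.erase i) \ N).card := le_card_sdiff _ _
      have h3 : (m + 1) * (D + 1) = m * (D + 1) + (D + 1) := by ring
      omega
    obtain ⟨T'', hsub, hc, hind⟩ := ih _ hT1
    have hiT'' : i ∉ T'' := fun h => by
      have := hsub h
      simp at this
    refine ⟨insert i T'', ?_, ?_, ?_⟩
    · intro j hj
      rw [mem_insert] at hj
      rcases hj with rfl | hj
      · exact hiT
      · have := hsub hj
        rw [mem_sdiff, mem_erase] at this
        exact this.1.2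
    · rw [card_insert_of_notMem hiT'', hc]
    · intro j hj hpj
      by_cases hij : i ∈ p j
      · have h1 : ((p j).erase i).Nonempty := by
          rw [← card_pos, card_erase_of_mem hij, hp j hj]
          omega
        obtain ⟨l, hl⟩ := h1
        have h2 : l ∈ N := by
          rw [hN, mem_biUnion]
          exact ⟨j, mem_filter.2 ⟨hj, hij⟩, hl⟩
        rw [mem_erase] at hl
        have h3 := hpj hl.2
        rw [mem_insert] at h3
        rcases h3 with h3 | h3
        · exact hl.1 h3
        · have h4 := hsub h3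
          rw [mem_sdiff] at h4
          exact h4.2 h2
      · refine hind j hj fun l hl => ?_
        have h3 := hpj hl
        rw [mem_insert] at h3
        rcases h3 with h3 | h3
        · rw [h3] at hl
          exact absurd hl hij
        · exact h3

theorem inter_mem (G : Finset (Finset ℕ)) (hG : ∀ s ∈ G, ∀ s' ∈ G, s ∩ s' ∈ G)
    (b : ℕ → Finset ℕ) (T : Finset ℕ) (hb : ∀ i ∈ T, b i ∈ G) (b0 : Finset ℕ) (h0 : b0 ∈ G) :
    ∀ S ⊆ T, b0.filter (fun j => ∀ i ∈ S, j ∈ b i) ∈ G := by
  intro S
  induction S using Finset.induction_on with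
  | empty =>
    intro _
    have : b0.filter (fun j => ∀ i ∈ (∅ : Finset ℕ), j ∈ b i) = b0 := by
      ext j; simp
    rw [this]
    exact h0
  | insert a S ha ih =>
    intro hS
    have h1 := ih (fun i hi => hS (mem_insert_of_mem hi))
    have h2 := hG _ h1 _ (hb a (hS (mem_insert_self a S)))
    have h3 : b0.filter (fun j => ∀ i ∈ insert a S, j ∈ b i) =
        b0.filter (fun j => ∀ i ∈ S, j ∈ b i) ∩ b a := by
      ext j
      simp only [mem_filter, mem_inter, mem_insert, forall_eq_or_imp]
      tauto
    rw [h3]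
    exact h2

/-- a large cube in an intersection closed family which shatters a large set -/
theorem cube (n : ℕ) (G : Finset (Finset ℕ)) (hG : ∀ s ∈ G, s ⊆ range n)
    (hinter : ∀ s ∈ G, ∀ s' ∈ G, s ∩ s' ∈ G) (T : Finset ℕ) (hT : G.Shatters T)
    (D L m : ℕ) (hL : 2 * n < L * (D + 1)) (hTc : L + m * (D + 1) ≤ T.card) :
    ∃ (T' : Finset ℕ) (X : Finset ℕ → Finset ℕ), T' ⊆ range n ∧ T'.card = m ∧
      (∀ S ⊆ T', X S ∈ G) ∧
      (∀ S ⊆ T', ∀ i ∈ T', i ∈ X S ↔ i ∈ S) ∧
      ∀ j, (∀ S ⊆ T', (j ∈ X S ↔ j ∉ X (T' \ S))) ∨ (∀ S ⊆ T', j ∈ X S) ∨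
        (∀ S ⊆ T', j ∉ X S) := by
  classical
  have hb : ∀ i, ∃ u, i ∈ T → u ∈ G ∧ T ∩ u = T.erase i := by
    intro i
    by_cases hi : i ∈ T
    · obtain ⟨u, hu, h⟩ := hT (erase_subset i T)
      exact ⟨u, fun _ => ⟨hu, h⟩⟩
    · exact ⟨∅, fun h => absurd h hi⟩
  choose b hb using hb
  obtain ⟨b0, hb0, hb0T⟩ := hT (subset_refl T)
  have hTb0 : T ⊆ b0 := by
    intro i hi
    have : i ∈ T ∩ b0 := by rw [hb0T]; exact hi
    exact (mem_inter.1 this).2
  -- the sets `Z j`
  set Z : ℕ → Finset ℕ := fun j => T.filter (fun i => j ∉ b i) with hZ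
  have hZself : ∀ i ∈ T, Z i = {i} := by
    intro i hi
    ext l
    rw [hZ]
    simp only [mem_filter, mem_singleton]
    constructor
    · rintro ⟨hl, hil⟩
      by_contra hne
      apply hil
      have h1 : i ∈ T.erase l := mem_erase.2 ⟨fun h => hne h.symm, hi⟩
      rw [← (hb l hl).2] at h1
      exact (mem_inter.1 h1).2
    · rintro rfl
      refine ⟨hi, fun h => ?_⟩
      have h1 : l ∈ T ∩ b l := mem_inter.2 ⟨hi, h⟩
      rw [(hb l hi).2] at h1
      simp at h1
  set J := b0.filter (fun j => 2 ≤ (Z j).card) with hJ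
  have hJc : J.card ≤ n := by
    have h1 : J ⊆ range n := (filter_subset _ _).trans (hG b0 hb0)
    have h2 := card_le_card h1
    rwa [card_range] at h2
  have hp : ∀ j, ∃ q : Finset ℕ, j ∈ J → q ⊆ Z j ∧ q.card = 2 := by
    intro j
    by_cases hj : j ∈ J
    · obtain ⟨q, hq1, hq2⟩ := exists_subset_card_eq (mem_filter.1 hj).2
      exact ⟨q, fun _ => ⟨hq1, hq2⟩⟩
    · exact ⟨∅, fun h => absurd h hj⟩
  choose p hp using hp
  obtain ⟨T', hT'T, hT'c, hind⟩ := indep J p (fun j hj => (hp j hj).2) D L
    (lt_of_le_of_lt (Nat.mul_le_mul_left 2 hJc) hL) m T hTc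
  have hX : ∀ S j, j ∈ b0.filter (fun j => ∀ i ∈ T \ S, j ∈ b i) ↔ j ∈ b0 ∧ Z j ⊆ S := by
    intro S j
    rw [mem_filter, hZ]
    constructor
    · rintro ⟨h1, h2⟩
      refine ⟨h1, fun i hi => ?_⟩
      rw [mem_filter] at hi
      by_contra hiS
      exact hi.2 (h2 i (mem_sdiff.2 ⟨hi.1, hiS⟩))
    · rintro ⟨h1, h2⟩
      refine ⟨h1, fun i hi => ?_⟩
      rw [mem_sdiff] at hi
      by_contra hij
      exact hi.2 (h2 (mem_filter.2 ⟨hi.1, hij⟩))
  refine ⟨T', fun S => b0.filter (fun j => ∀ i ∈ T \ S, j ∈ b i),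
    (hT'T.trans hTb0).trans (hG b0 hb0), hT'c, ?_, ?_, ?_⟩
  · intro S _
    exact inter_mem G hinter b T (fun i hi => (hb i hi).1) b0 hb0 _ sdiff_subset
  · intro S _ i hi
    rw [hX, hZself i (hT'T hi), singleton_subset_iff]
    exact ⟨fun h => h.2, fun h => ⟨hTb0 (hT'T hi), h⟩⟩
  · intro j
    by_cases hj : j ∈ b0
    · rcases Nat.lt_or_ge (Z j).card 2 with h2 | h2
      · rcases Nat.lt_or_ge (Z j).card 1 with h1 | h1
        · have h3 : Z j = ∅ := by
            rw [← card_eq_zero]
            omega
          right; left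
          intro S _
          rw [hX, h3]
          exact ⟨hj, empty_subset _⟩
        · obtain ⟨i, hi⟩ := card_eq_one.1 (by omega : (Z j).card = 1)
          by_cases hiT : i ∈ T'
          · left
            intro S _
            rw [hX, hX, hi, singleton_subset_iff, singleton_subset_iff, mem_sdiff]
            constructor
            · rintro ⟨_, h4⟩ ⟨_, _, h5⟩
              exact h5 h4
            · intro h4
              refine ⟨hj, ?_⟩
              by_contra h5
              exact h4 ⟨hj, hiT, h5⟩
          · right; right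
            intro S hS
            rw [hX, hi, singleton_subset_iff]
            rintro ⟨_, h4⟩
            exact hiT (hS h4)
      · right; right
        intro S hS
        rw [hX]
        rintro ⟨_, h4⟩
        have hjJ : j ∈ J := mem_filter.2 ⟨hj, h2⟩
        exact hind j hjJ (((hp j hjJ).1.trans h4).trans hS)
    · right; right
      intro S _
      rw [hX]
      exact fun h => hj h.1

end Pool.Agent.H523R4.BC
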