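import Mathlib
import Pool.Agent.H523R4.BitClone
import Pool.Agent.H523R4.Cube

set_option autoImplicit false

/-!
Sums of two elements of a set of naturals closed under a bitwise operation which is not affine.
-/

namespace Pool.Agent.H523R4.BC

open Finset

/-- `A` is closed under the bitwise operation `f` -/
def BitClosed {k : ℕ} (f : (Fin k → Bool) → Bool) (A : Set ℕ) : Prop :=
  ∀ a : Fin k → ℕ, (∀ i, a i ∈ A) →
    ∃ b ∈ A, ∀ j, b.testBit j = f (fun i => (a i).testBit j)

/-- number of ordered representations -/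
noncomputable def rep2 (A : Set ℕ) (x : ℕ) : ℕ :=
  Set.ncard {p : ℕ × ℕ | p.1 ∈ A ∧ p.2 ∈ A ∧ p.1 + p.2 = x}

theorem rep2_finite (A : Set ℕ) (x : ℕ) :
    {p : ℕ × ℕ | p.1 ∈ A ∧ p.2 ∈ A ∧ p.1 + p.2 = x}.Finite := by
  refine ((Set.finite_Iic x).prod (Set.finite_Iic x)).subset ?_
  rintro ⟨a, b⟩ ⟨_, _, h⟩
  simp only at h
  exact ⟨by simp only [Set.mem_Iic]; omega, by simp only [Set.mem_Iic]; omega⟩

theorem mod_eq_sum (a n : ℕ) : a % 2 ^ n = ∑ j ∈ range n, 2 ^ j * (a.testBit j).toNat := by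
  induction n with
  | zero => simp [Nat.mod_one]
  | succ n ih =>
    rw [sum_range_succ, ← ih, Nat.mod_pow_succ, Nat.toNat_testBit]

theorem eq_of_bits {a b n : ℕ} (ha : a < 2 ^ n) (hb : b < 2 ^ n)
    (h : ∀ j < n, a.testBit j = b.testBit j) : a = b := by
  rw [← Nat.mod_eq_of_lt ha, ← Nat.mod_eq_of_lt hb, mod_eq_sum, mod_eq_sum]
  refine sum_congr rfl fun j hj => ?_
  rw [h j (mem_range.1 hj)]

theorem lt_of_bits {a n : ℕ} (h : ∀ j, n ≤ j → a.testBit j = false) : a < 2 ^ n :=
  Nat.lt_pow_two_of_testBit a h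

/-- from a set closed under intersections (after a translation) to many representations -/
theorem main_cube {A : Set ℕ} (z : ℕ → Bool)
    (hz : ∀ a ∈ A, ∀ b ∈ A, ∃ c ∈ A, ∀ j, c.testBit j =
      (((a.testBit j ^^ z j) && (b.testBit j ^^ z j)) ^^ z j))
    (n t : ℕ) (hcard : ∑ k ∈ range (t + 1), n.choose k < (A ∩ Set.Iio (2 ^ n)).ncard) :
    ∃ x < 2 ^ (n + 1), 2 ^ (t ^ 2 / (10 * n)) ≤ rep2 A x := by
  classical
  have hfin : (A ∩ Set.Iio (2 ^ n)).Finite := (Set.finite_Iio _).subset fun a ha => ha.2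
  set An := hfin.toFinset with hAn
  have hmemAn : ∀ a, a ∈ An ↔ a ∈ A ∧ a < 2 ^ n := by
    intro a
    rw [hAn, Set.Finite.mem_toFinset]
    rfl
  have hAnc : (A ∩ Set.Iio (2 ^ n)).ncard = An.card := Set.ncard_eq_toFinset_card _ hfin
  set φ : ℕ → Finset ℕ := fun a => (range n).filter (fun j => (a.testBit j ^^ z j) = true) with hφ
  have hφinj : Set.InjOn φ An := by
    intro a ha b hb hab
    rw [mem_coe, hmemAn] at ha hb
    refine eq_of_bits ha.2 hb.2 fun j hj => ?_
    have h1 : j ∈ φ a ↔ j ∈ φ b := by rw [hab]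
    rw [hφ] at h1
    simp only [mem_filter, mem_range, hj, true_and] at h1
    cases h2 : a.testBit j <;> cases h3 : b.testBit j <;> cases h4 : z j <;> simp_all
  set G := An.image φ with hG
  have hGc : G.card = An.card := card_image_of_injOn hφinj
  have hGr : ∀ s ∈ G, s ⊆ range n := by
    intro s hs
    rw [hG, mem_image] at hs
    obtain ⟨a, _, rfl⟩ := hs
    exact filter_subset _ _
  have hGi : ∀ s ∈ G, ∀ s' ∈ G, s ∩ s' ∈ G := by
    intro s hs s' hs'
    rw [hG, mem_image] at hs hs' ⊢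
    obtain ⟨a, ha, rfl⟩ := hs
    obtain ⟨b, hb, rfl⟩ := hs'
    rw [hmemAn] at ha hb
    obtain ⟨c, hc, hcb⟩ := hz a ha.1 b hb.1
    refine ⟨c, ?_, ?_⟩
    · rw [hmemAn]
      refine ⟨hc, lt_of_bits fun j hj => ?_⟩
      have h1 : a.testBit j = false := Nat.testBit_lt_two_pow (lt_of_lt_of_le ha.2
        (Nat.pow_le_pow_right (by norm_num) hj))
      have h2 : b.testBit j = false := Nat.testBit_lt_two_pow (lt_of_lt_of_le hb.2
        (Nat.pow_le_pow_right (by norm_num) hj))
      rw [hcb j, h1, h2]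
      cases z j <;> rfl
    · rw [hφ]
      ext j
      simp only [mem_filter, mem_inter, mem_range, hcb j]
      cases a.testBit j <;> cases b.testBit j <;> cases z j <;> simp
  -- a large shattered set
  obtain ⟨T, hT, hTt⟩ : ∃ T, G.Shatters T ∧ t + 1 ≤ T.card := by
    by_contra hcon
    push Not at hcon
    have h1 : G.shatterer ⊆ ((range n).powerset).filter (fun s => s.card ≤ t) := by
      intro s hs
      rw [mem_shatterer] at hs
      rw [mem_filter, mem_powerset]
      refine ⟨?_, by have := hcon s hs; omega⟩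
      obtain ⟨u, hu, hsu⟩ := hs (subset_refl s)
      rw [← hsu]
      exact inter_subset_right.trans (hGr u hu)
    have h2 := (card_le_card_shatterer G).trans ((card_le_card h1).trans (card_small' n t))
    rw [hGc, ← hAnc] at h2
    omega
  have hTn : T.card ≤ n := by
    obtain ⟨u, hu, hsu⟩ := hT (subset_refl T)
    have h1 : T ⊆ range n := by
      rw [← hsu]
      exact inter_subset_right.trans (hGr u hu)
    have := card_le_card h1
    rwa [card_range] at this
  -- parameters
  set τ := T.card with hτ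
  have hτ0 : 0 < τ := by omega
  set D := 4 * n / τ with hD
  set m := t ^ 2 / (10 * n) with hm
  have hn0 : 0 < n := by omega
  have hDlt : 4 * n < τ * (D + 1) := Nat.lt_mul_div_succ (4 * n) hτ0
  have hDle : D * τ ≤ 4 * n := Nat.div_mul_le_self (4 * n) τ
  have hmle : m * (10 * n) ≤ t ^ 2 := Nat.div_mul_le_self _ _
  have hkey : 2 * (m * (D + 1)) ≤ t := by
    by_contra hcon
    push Not at hcon
    -- multiply by `5 n τ`
    have h1 : t * (5 * n * τ) < 2 * (m * (D + 1)) * (5 * n * τ) :=
      Nat.mul_lt_mul_of_pos_right hcon (by positivity)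
    have h2 : 2 * (m * (D + 1)) * (5 * n * τ) = m * (10 * n) * (D * τ + τ) := by ring
    have h3 : m * (10 * n) * (D * τ + τ) ≤ t ^ 2 * (4 * n + τ) :=
      Nat.mul_le_mul hmle (by omega)
    have h4 : t ^ 2 * (4 * n + τ) ≤ t ^ 2 * (5 * n) := Nat.mul_le_mul_left _ (by omega)
    have h5 : t ^ 2 * (5 * n) ≤ t * (5 * n * τ) := by
      have : t * t ≤ t * τ := Nat.mul_le_mul_left _ (by omega)
      nlinarith
    omega
  set L := τ - τ / 2 with hLdef
  have hL2 : τ ≤ 2 * L := by omega
  have hL : 2 * n < L * (D + 1) := by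
    have h1 : τ * (D + 1) ≤ 2 * L * (D + 1) := Nat.mul_le_mul_right _ hL2
    have h2 : 2 * L * (D + 1) = 2 * (L * (D + 1)) := by ring
    omega
  obtain ⟨T', X, hT'n, hT'm, hXG, hXT, hXj⟩ := cube n G hGr hGi T hT D L m hL (by omega)
  -- the elements of `A`
  have ha : ∀ S, ∃ a, S ⊆ T' → a ∈ A ∧ a < 2 ^ n ∧
      ∀ j < n, a.testBit j = (decide (j ∈ X S) ^^ z j) := by
    intro S
    by_cases hS : S ⊆ T'
    · have h1 := hXG S hS
      rw [hG, mem_image] at h1
      obtain ⟨a, ha, hax⟩ := h1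
      rw [hmemAn] at ha
      refine ⟨a, fun _ => ⟨ha.1, ha.2, fun j hj => ?_⟩⟩
      have h2 : j ∈ X S ↔ (a.testBit j ^^ z j) = true := by
        rw [← hax, hφ]
        simp [hj]
      by_cases h3 : j ∈ X S
      · have h4 := h2.1 h3
        rw [decide_eq_true h3]
        revert h4
        cases a.testBit j <;> cases z j <;> simp
      · have h4 : ¬ (a.testBit j ^^ z j) = true := fun h => h3 (h2.2 h)
        rw [decide_eq_false h3]
        revert h4
        cases a.testBit j <;> cases z j <;> simp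
    · exact ⟨0, fun h => absurd h hS⟩
  choose a ha using ha
  have hsum : ∀ S ⊆ T', a S + a (T' \ S) = a ∅ + a T' := by
    intro S hS
    have hS' : T' \ S ⊆ T' := sdiff_subset
    rw [← Nat.mod_eq_of_lt (ha S hS).2.1, ← Nat.mod_eq_of_lt (ha _ hS').2.1,
      ← Nat.mod_eq_of_lt (ha ∅ (empty_subset _)).2.1,
      ← Nat.mod_eq_of_lt (ha T' (subset_refl _)).2.1, mod_eq_sum, mod_eq_sum, mod_eq_sum,
      mod_eq_sum, ← sum_add_distrib, ← sum_add_distrib]
    refine sum_congr rfl fun j hj => ?_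
    rw [mem_range] at hj
    rw [← mul_add, ← mul_add]
    congr 1
    rw [(ha S hS).2.2 j hj, (ha _ hS').2.2 j hj, (ha ∅ (empty_subset _)).2.2 j hj,
      (ha T' (subset_refl _)).2.2 j hj]
    rcases hXj j with h | h | h
    · have h1 := h S hS
      have h2 := h ∅ (empty_subset _)
      rw [sdiff_empty] at h2
      by_cases h3 : j ∈ X S
      · have h4 : j ∉ X (T' \ S) := h1.1 h3
        by_cases h5 : j ∈ X ∅
        · have h6 := h2.1 h5
          simp only [h3, h4, h5, h6, decide_true, decide_false]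
        · have h6 : j ∈ X T' := by
            by_contra h7
            exact h5 (h2.2 h7)
          simp only [h3, h4, h5, h6, decide_true, decide_false]
          cases z j <;> rfl
      · have h4 : j ∈ X (T' \ S) := by
          by_contra h7
          exact h3 (h1.2 h7)
        by_cases h5 : j ∈ X ∅
        · have h6 := h2.1 h5
          simp only [h3, h4, h5, h6, decide_true, decide_false]
          cases z j <;> rfl
        · have h6 : j ∈ X T' := by
            by_contra h7
            exact h5 (h2.2 h7)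
          simp only [h3, h4, h5, h6, decide_true, decide_false]
    · simp only [h S hS, h _ hS', h ∅ (empty_subset _), h T' (subset_refl _)]
    · simp only [h S hS, h _ hS', h ∅ (empty_subset _), h T' (subset_refl _)]
  have hinj : Set.InjOn (fun S => (a S, a (T' \ S))) (T'.powerset : Set (Finset ℕ)) := by
    intro S hS S' hS' heq
    rw [mem_coe, mem_powerset] at hS hS'
    have h1 : a S = a S' := congrArg Prod.fst heq
    ext i
    by_cases hi : i ∈ T'
    · have hin : i < n := mem_range.1 (hT'n hi)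
      have h2 := (ha S hS).2.2 i hin
      have h3 := (ha S' hS').2.2 i hin
      rw [h1, h3] at h2
      rw [← hXT S hS i hi, ← hXT S' hS' i hi]
      by_cases h4 : i ∈ X S <;> by_cases h5 : i ∈ X S' <;> simp only [h4, h5] at h2 ⊢
      · revert h2
        cases z i <;> simp
      · revert h2
        cases z i <;> simp
    · exact ⟨fun h => absurd (hS h) hi, fun h => absurd (hS' h) hi⟩
  refine ⟨a ∅ + a T', ?_, ?_⟩
  · have h1 := (ha ∅ (empty_subset _)).2.1
    have h2 := (ha T' (subset_refl _)).2.1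
    rw [pow_succ]
    omega
  · have h1 : ((T'.powerset.image (fun S => (a S, a (T' \ S))) : Finset (ℕ × ℕ)) : Set (ℕ × ℕ)) ⊆
        {p : ℕ × ℕ | p.1 ∈ A ∧ p.2 ∈ A ∧ p.1 + p.2 = a ∅ + a T'} := by
      intro p hp
      rw [mem_coe, mem_image] at hp
      obtain ⟨S, hS, rfl⟩ := hp
      rw [mem_powerset] at hS
      exact ⟨(ha S hS).1, (ha _ sdiff_subset).1, hsum S hS⟩
    have h2 := Set.ncard_le_ncard h1 (rep2_finite A _)
    rw [Set.ncard_coe_finset, card_image_of_injOn hinj, card_powerset, hT'm] at h2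
    exact h2

/-- main finite statement -/
theorem main_bit {k : ℕ} (f : (Fin k → Bool) → Bool) (hf : ¬ IsAffine f) (A : Set ℕ)
    (hA : BitClosed f A) (n t : ℕ)
    (hcard : ∑ k ∈ range (t + 1), n.choose k < (A ∩ Set.Iio (2 ^ n)).ncard) :
    ∃ x < 2 ^ (n + 1), 2 ^ (t ^ 2 / (10 * n)) ≤ rep2 A x := by
  have hne : A.Nonempty := by
    by_contra hcon
    rw [Set.not_nonempty_iff_eq_empty] at hcon
    rw [hcon, Set.empty_inter, Set.ncard_empty] at hcard
    omega
  obtain ⟨a0, ha0⟩ := hne
  have h0 : f (fun _ => false) = false := by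
    obtain ⟨b, _, hb⟩ := hA (fun _ => a0) (fun _ => ha0)
    have h1 : b.testBit (a0 + b) = false := Nat.testBit_lt_two_pow
      (lt_of_lt_of_le Nat.lt_two_pow_self (Nat.pow_le_pow_right (by norm_num) (by omega)))
    have h2 : a0.testBit (a0 + b) = false := Nat.testBit_lt_two_pow
      (lt_of_lt_of_le Nat.lt_two_pow_self (Nat.pow_le_pow_right (by norm_num) (by omega)))
    have h3 := hb (a0 + b)
    rw [h1] at h3
    have h4 : (fun _ : Fin k => false) = (fun _ : Fin k => a0.testBit (a0 + b)) := by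
      funext i
      exact h2.symm
    rw [h4]
    exact h3.symm
  have hC : Closed f {v : ℕ → Bool | ∃ a ∈ A, v = a.testBit} := by
    intro v hv
    choose a ha hav using hv
    obtain ⟨b, hb, hbb⟩ := hA a ha
    refine ⟨b, hb, ?_⟩
    funext j
    rw [hbb j]
    congr 1
    funext i
    rw [hav i]
  obtain ⟨z, hz⟩ := translate f hf h0 _ hC ⟨a0.testBit, a0, ha0, rfl⟩
  refine main_cube z ?_ n t hcard
  intro a ha b hb
  obtain ⟨c, hc, hcc⟩ := hz a.testBit ⟨a, ha, rfl⟩ b.testBit ⟨b, hb, rfl⟩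
  exact ⟨c, hc, fun j => by rw [← hcc]⟩

end Pool.Agent.H523R4.BC
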