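import Mathlib
import Pool.Agent.H523R4.ET

set_option autoImplicit false

/-!
Counting functions of additive bases, and unordered representations.
-/

namespace Pool.Agent.H523R4.BC

open Finset

/-- The unordered representations of `n` as a sum of `h` elements of `A`. -/
def reps (A : Set ℕ) (h n : ℕ) : Set (Multiset ℕ) :=
  {s : Multiset ℕ | Multiset.card s = h ∧ (∀ a ∈ s, a ∈ A) ∧ s.sum = n}

theorem reps_exists_fun {A : Set ℕ} {h n : ℕ} {s : Multiset ℕ} (hs : s ∈ reps A h n) :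
    ∃ f : Fin h → ℕ, (∀ i, f i ∈ A) ∧ (∀ i, f i ≤ n) ∧ Multiset.ofList (List.ofFn f) = s := by
  obtain ⟨hc, hA, hsum⟩ := hs
  obtain ⟨l, rfl⟩ := Quotient.exists_rep s
  have hl : l.length = h := hc
  subst hl
  refine ⟨fun i => l.get i, fun i => hA _ (by simp), fun i => ?_, ?_⟩
  · have h1 : (l.get i) ∈ (Multiset.ofList l) := by simp
    have h2 := Multiset.single_le_sum (s := Multiset.ofList l) (fun x _ => Nat.zero_le x) _ h1
    have h3 : (Multiset.ofList l).sum = n := hsum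
    show l.get i ≤ n
    omega
  · rw [List.ofFn_get]
    rfl

theorem reps_finite (A : Set ℕ) (h n : ℕ) : (reps A h n).Finite := by
  have h1 : (Set.range fun f : Fin h → Fin (n + 1) =>
      Multiset.ofList (List.ofFn fun i => (f i : ℕ))).Finite := Set.finite_range _
  refine h1.subset ?_
  intro s hs
  obtain ⟨f, _, hf, rfl⟩ := reps_exists_fun hs
  exact ⟨fun i => ⟨f i, Nat.lt_succ_of_le (hf i)⟩, rfl⟩

theorem rep2_le {A : Set ℕ} {h : ℕ} (hh : 2 ≤ h) {a0 : ℕ} (ha0 : a0 ∈ A) (n : ℕ) :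
    rep2 A n ≤ 2 * Set.ncard (reps A h (n + (h - 2) * a0)) := by
  classical
  set R := {p : ℕ × ℕ | p.1 ∈ A ∧ p.2 ∈ A ∧ p.1 + p.2 = n} with hR
  have hRfin : R.Finite := rep2_finite A n
  set R1 := {p | p ∈ R ∧ p.1 ≤ p.2} with hR1
  have hR1fin : R1.Finite := hRfin.subset fun p hp => hp.1
  let φ : ℕ × ℕ → Multiset ℕ := fun p => p.1 ::ₘ p.2 ::ₘ Multiset.replicate (h - 2) a0
  have hφ : ∀ p ∈ R1, φ p ∈ reps A h (n + (h - 2) * a0) := by
    rintro ⟨a, b⟩ ⟨⟨ha, hb, hab⟩, _⟩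
    refine ⟨?_, ?_, ?_⟩
    · simp only [φ, Multiset.card_cons, Multiset.card_replicate]
      omega
    · intro x hx
      simp only [φ, Multiset.mem_cons, Multiset.mem_replicate] at hx
      rcases hx with rfl | rfl | ⟨_, rfl⟩
      · exact ha
      · exact hb
      · exact ha0
    · simp only [φ, Multiset.sum_cons, Multiset.sum_replicate, smul_eq_mul]
      simp only at hab
      omega
  have hinj : Set.InjOn φ R1 := by
    rintro ⟨a, b⟩ ⟨⟨_, _, hab⟩, hle⟩ ⟨c, d⟩ ⟨⟨_, _, hcd⟩, hle'⟩ heq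
    simp only [φ] at heq
    simp only at hab hcd hle hle'
    have h1 : a ::ₘ b ::ₘ (0 : Multiset ℕ) = c ::ₘ d ::ₘ 0 := by
      have e1 : a ::ₘ b ::ₘ Multiset.replicate (h - 2) a0 =
          (a ::ₘ b ::ₘ 0) + Multiset.replicate (h - 2) a0 := by simp
      have e2 : c ::ₘ d ::ₘ Multiset.replicate (h - 2) a0 =
          (c ::ₘ d ::ₘ 0) + Multiset.replicate (h - 2) a0 := by simp
      rw [e1, e2] at heq
      exact Multiset.add_left_inj.1 heq
    have h2 : a ∈ (c ::ₘ d ::ₘ (0 : Multiset ℕ)) := by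
      rw [← h1]; simp
    simp only [Multiset.mem_cons, Multiset.notMem_zero, or_false] at h2
    rcases h2 with h2 | h2
    · subst h2
      have : b = d := by omega
      rw [this]
    · subst h2
      have : b = c := by omega
      subst this
      have : a = b := by omega
      rw [this]
  have h1 : R1.ncard ≤ (reps A h (n + (h - 2) * a0)).ncard :=
    Set.ncard_le_ncard_of_injOn φ hφ hinj (reps_finite _ _ _)
  have h2 : R ⊆ R1 ∪ Prod.swap '' R1 := by
    rintro ⟨a, b⟩ ⟨ha, hb, hab⟩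
    rcases le_total a b with h3 | h3
    · exact Or.inl ⟨⟨ha, hb, hab⟩, h3⟩
    · refine Or.inr ⟨(b, a), ⟨⟨hb, ha, ?_⟩, h3⟩, rfl⟩
      simp only at hab ⊢
      omega
  have h3 : R.ncard ≤ R1.ncard + (Prod.swap '' R1).ncard :=
    (Set.ncard_le_ncard h2 (hR1fin.union (hR1fin.image _))).trans (Set.ncard_union_le _ _)
  have h4 : (Prod.swap '' R1).ncard ≤ R1.ncard := Set.ncard_image_le hR1fin
  have h5 : rep2 A n = R.ncard := rfl
  omega

/-- the counting function of a basis -/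
theorem count_of_basis {A : Set ℕ} {h n0 : ℕ} (hn0 : ∀ n : ℕ, n0 ≤ n → (reps A h n).Nonempty)
    (N : ℕ) : N - n0 ≤ ((A ∩ Set.Iio N).ncard) ^ h := by
  classical
  have hfin : (A ∩ Set.Iio N).Finite := (Set.finite_Iio N).subset fun a ha => ha.2
  have h1 : ∀ n, ∃ f : Fin h → ℕ, n0 ≤ n → (∀ i, f i ∈ A) ∧ (∀ i, f i ≤ n) ∧
      (Multiset.ofList (List.ofFn f)).sum = n := by
    intro n
    by_cases hn : n0 ≤ n
    · obtain ⟨s, hs⟩ := hn0 n hn
      obtain ⟨f, hf1, hf2, hf3⟩ := reps_exists_fun hs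
      exact ⟨f, fun _ => ⟨hf1, hf2, by rw [hf3]; exact hs.2.2⟩⟩
    · exact ⟨fun _ => 0, fun h => absurd h hn⟩
  choose p hp using h1
  have h3 : ((Finset.Ico n0 N).image p : Finset (Fin h → ℕ)) ⊆
      Fintype.piFinset (fun _ : Fin h => hfin.toFinset) := by
    intro q hq
    obtain ⟨n, hn, rfl⟩ := Finset.mem_image.1 hq
    rw [Finset.mem_Ico] at hn
    obtain ⟨h4, h5, h6⟩ := hp n hn.1
    rw [Fintype.mem_piFinset]
    intro i
    rw [Set.Finite.mem_toFinset]
    exact ⟨h4 i, lt_of_le_of_lt (h5 i) hn.2⟩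
  have h4 := Finset.card_le_card h3
  rw [Fintype.card_piFinset, Finset.prod_const, ← Set.ncard_eq_toFinset_card _ hfin,
    Finset.card_image_of_injOn, Nat.card_Ico, Finset.card_univ, Fintype.card_fin] at h4
  · exact h4
  · intro n hn m hm hnm
    rw [Finset.coe_Ico, Set.mem_Ico] at hn hm
    have h5 := (hp n hn.1).2.2
    have h6 := (hp m hm.1).2.2
    rw [← h5, ← h6, hnm]

/-- at least half of the numbers below `2 ^ n` are counted -/
theorem count_of_basis' {A : Set ℕ} {h n0 : ℕ} (hn0 : ∀ n : ℕ, n0 ≤ n → (reps A h n).Nonempty)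
    (n : ℕ) (hn : n0 + 2 ≤ n) : 2 ^ (n - 1) ≤ ((A ∩ Set.Iio (2 ^ n)).ncard) ^ h := by
  have hcount := count_of_basis hn0 (2 ^ n)
  have h1 : n0 ≤ 2 ^ (n - 1) := by
    have : n - 1 < 2 ^ (n - 1) := Nat.lt_two_pow_self
    omega
  have h2 : 2 ^ n = 2 ^ (n - 1) + 2 ^ (n - 1) := by
    obtain ⟨k, rfl⟩ : ∃ k, n = k + 1 := ⟨n - 1, by omega⟩
    rw [Nat.add_sub_cancel, pow_succ]
    ring
  omega

/-- partial sums of binomial coefficients -/
theorem sum_choose_le (n t q : ℕ) (hq : 1 ≤ q) :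
    q ^ n * ∑ k ∈ range (t + 1), n.choose k ≤ (q + 1) ^ n * q ^ t := by
  have h1 : (q + 1) ^ n = ∑ k ∈ range (n + 1), q ^ (n - k) * n.choose k := by
    rw [add_pow, ← sum_range_reflect]
    refine sum_congr rfl fun k hk => ?_
    rw [mem_range] at hk
    rw [one_pow, mul_one, show n + 1 - 1 - k = n - k by omega,
      Nat.choose_symm (by omega : k ≤ n)]
    rfl
  have h2 : ∀ k ∈ range (t + 1), q ^ n * n.choose k ≤ q ^ (n - k) * n.choose k * q ^ t := by
    intro k hk
    rw [mem_range] at hk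
    rcases Nat.lt_or_ge n k with h3 | h3
    · rw [Nat.choose_eq_zero_of_lt h3]; simp
    · have h4 : q ^ n ≤ q ^ (n - k) * q ^ t := by
        rw [← pow_add]
        exact Nat.pow_le_pow_right hq (by omega)
      calc q ^ n * n.choose k ≤ q ^ (n - k) * q ^ t * n.choose k := Nat.mul_le_mul_right _ h4
        _ = _ := by ring
  rw [mul_sum]
  refine (sum_le_sum h2).trans ?_
  rw [← sum_mul]
  refine Nat.mul_le_mul_right _ ?_
  rw [h1]
  rcases le_total t n with h3 | h3
  · exact sum_le_sum_of_subset (by intro k; simp only [mem_range]; omega)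
  · rw [← sum_subset (show range (n + 1) ⊆ range (t + 1) by
      intro k; simp only [mem_range]; omega)]
    intro k _ hk
    rw [mem_range, not_lt] at hk
    rw [Nat.choose_eq_zero_of_lt (by omega), mul_zero]

end Pool.Agent.H523R4.BC
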