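import Mathlib

set_option autoImplicit false

/-!
Heavy words in binary linear codes (sets closed under symmetric difference).
-/

namespace Pool.Agent.H523R4.BC

open Finset

/-- information sets -/
theorem info (n : ℕ) : ∀ V : Finset (Finset ℕ), (∀ v ∈ V, v ⊆ range n) → ∅ ∈ V →
    (∀ v ∈ V, ∀ w ∈ V, symmDiff v w ∈ V) →
    ∃ I ⊆ range n, (∀ v ∈ V, ∀ w ∈ V, v ∩ I = w ∩ I → v = w) ∧
      ∀ S ⊆ I, ∃ v ∈ V, v ∩ I = S := by
  induction n with
  | zero =>
    intro V hV h0 _
    refine ⟨∅, by simp, ?_, ?_⟩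
    · intro v hv w hw _
      have h1 := hV v hv
      have h2 := hV w hw
      simp only [range_zero, subset_empty] at h1 h2
      rw [h1, h2]
    · intro S hS
      exact ⟨∅, h0, by rw [subset_empty.1 hS]; simp⟩
  | succ n ih =>
    intro V hV h0 hs
    set V' := V.image (fun v => v.erase n) with hV'
    have h1 : ∀ v ∈ V', v ⊆ range n := by
      intro v hv
      rw [hV', mem_image] at hv
      obtain ⟨w, hw, rfl⟩ := hv
      intro j hj
      rw [mem_erase] at hj
      have := hV w hw hj.2
      rw [mem_range] at this ⊢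
      omega
    have h2 : ∅ ∈ V' := by
      rw [hV', mem_image]
      exact ⟨∅, h0, by simp⟩
    have h3 : ∀ v ∈ V', ∀ w ∈ V', symmDiff v w ∈ V' := by
      intro v hv w hw
      rw [hV', mem_image] at hv hw ⊢
      obtain ⟨v, hv, rfl⟩ := hv
      obtain ⟨w, hw, rfl⟩ := hw
      refine ⟨symmDiff v w, hs v hv w hw, ?_⟩
      ext j
      simp only [mem_erase, mem_symmDiff]
      tauto
    obtain ⟨I', hI'n, hinj, hsurj⟩ := ih V' h1 h2 h3
    have hnI' : n ∉ I' := fun h => by
      have := hI'n h
      simp at this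
    by_cases hn : {n} ∈ V
    · refine ⟨insert n I', ?_, ?_, ?_⟩
      · intro j hj
        rw [mem_insert] at hj
        rcases hj with rfl | hj
        · simp
        · have := hI'n hj
          rw [mem_range] at this ⊢
          omega
      · intro v hv w hw hvw
        have h4 : v.erase n = w.erase n := by
          refine hinj _ (mem_image_of_mem _ hv) _ (mem_image_of_mem _ hw) ?_
          ext j
          have h5 := congrArg (fun s => j ∈ s) hvw
          simp only [mem_inter, mem_insert, eq_iff_iff] at h5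
          simp only [mem_inter, mem_erase]
          by_cases hj : j = n
          · simp [hj]
          · simp only [hj, false_or] at h5
            simp only [ne_eq, hj, not_false_eq_true, true_and]
            exact h5
        have h6 : n ∈ v ↔ n ∈ w := by
          have h5 := congrArg (fun s => n ∈ s) hvw
          simpa using h5
        ext j
        by_cases hj : j = n
        · rw [hj]; exact h6
        · have h5 := congrArg (fun s => j ∈ s) h4
          simpa [hj] using h5
      · intro S hS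
        obtain ⟨v', hv', hv'S⟩ := hsurj (S ∩ I') inter_subset_right
        rw [hV', mem_image] at hv'
        obtain ⟨v, hv, rfl⟩ := hv'
        have key : ∀ u ∈ V, u.erase n = v.erase n → (n ∈ u ↔ n ∈ S) →
            u ∩ insert n I' = S := by
          intro u _ hu1 hu2
          ext j
          rw [mem_inter, mem_insert]
          by_cases hj : j = n
          · subst hj
            simp only [true_or, and_true]
            exact hu2
          · have h5 : j ∈ u ↔ j ∈ v := by
              have h5 := congrArg (fun s => j ∈ s) hu1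
              simpa [hj] using h5
            have h6 : (j ∈ v ∧ j ∈ I') ↔ (j ∈ S ∧ j ∈ I') := by
              have h6 := congrArg (fun s => j ∈ s) hv'S
              simpa [hj] using h6
            simp only [hj, false_or]
            rw [h5, h6]
            refine ⟨fun h => h.1, fun h => ⟨h, ?_⟩⟩
            have h7 := hS h
            rw [mem_insert] at h7
            exact h7.resolve_left hj
        by_cases h8 : (n ∈ v ↔ n ∈ S)
        · exact ⟨v, hv, key v hv rfl h8⟩
        · refine ⟨symmDiff v {n}, hs v hv _ hn, key _ (hs v hv _ hn) ?_ ?_⟩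
          · ext j
            simp only [mem_erase, mem_symmDiff, mem_singleton]
            tauto
          · simp only [mem_symmDiff, mem_singleton]
            tauto
    · have hpi : ∀ v ∈ V, ∀ w ∈ V, v.erase n = w.erase n → v = w := by
        intro v hv w hw hvw
        have h4 : symmDiff v w ⊆ {n} := by
          intro j hj
          rw [mem_singleton]
          by_contra hjn
          have h5 := congrArg (fun s => j ∈ s) hvw
          simp only [mem_erase, ne_eq, hjn, not_false_eq_true, true_and, eq_iff_iff] at h5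
          rw [mem_symmDiff] at hj
          tauto
        rcases subset_singleton_iff.1 h4 with h5 | h5
        · exact symmDiff_eq_bot.1 h5
        · exact absurd (h5 ▸ hs v hv w hw) hn
      refine ⟨I', hI'n.trans (by simp), ?_, ?_⟩
      · intro v hv w hw hvw
        refine hpi v hv w hw (hinj _ (mem_image_of_mem _ hv) _ (mem_image_of_mem _ hw) ?_)
        rw [erase_inter, erase_inter, hvw]
      · intro S hS
        obtain ⟨v', hv', hv'S⟩ := hsurj S hS
        rw [hV', mem_image] at hv'
        obtain ⟨v, hv, rfl⟩ := hv'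
        refine ⟨v, hv, ?_⟩
        rw [← hv'S, erase_inter, erase_eq_of_notMem]
        intro h
        exact hnI' (mem_inter.1 h).2

/-- expectation of a multiplicative function with values `±1` -/
theorem expect_mul (I : Finset ℕ) (ψ : Finset ℕ → ℝ)
    (hψ : ∀ i ∈ I, ∀ S ⊆ I, i ∉ S → ψ (insert i S) = ψ {i} * ψ S) (h0 : ψ ∅ = 1) :
    ∑ S ∈ I.powerset, (3 / 4 : ℝ) ^ S.card * (1 / 4) ^ (I \ S).card * ψ S =
      ∏ i ∈ I, (3 / 4 * ψ {i} + 1 / 4) := by
  have h1 : ∀ S ⊆ I, ψ S = ∏ i ∈ S, ψ {i} := by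
    intro S
    induction S using Finset.induction_on with
    | empty => intro _; rw [h0, prod_empty]
    | insert a S ha ih =>
      intro hS
      rw [prod_insert ha, hψ a (hS (mem_insert_self a S)) S
        (fun i hi => hS (mem_insert_of_mem hi)) ha,
        ih (fun i hi => hS (mem_insert_of_mem hi))]
  rw [prod_add]
  refine sum_congr rfl fun S hS => ?_
  rw [mem_powerset] at hS
  rw [prod_mul_distrib, prod_const, prod_const, ← h1 S hS]
  ring

theorem prod_le (I : Finset ℕ) (ψ : ℕ → ℝ) (hψ : ∀ i ∈ I, ψ i = 1 ∨ ψ i = -1)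
    (h : ∃ i ∈ I, ψ i = -1) : ∏ i ∈ I, (3 / 4 * ψ i + 1 / 4) ≤ 1 / 4 := by
  obtain ⟨i, hi, hψi⟩ := h
  rw [← mul_prod_erase I _ hi, hψi]
  set P := ∏ x ∈ I.erase i, (3 / 4 * ψ x + 1 / 4) with hP
  have key : ∀ J : Finset ℕ, J ⊆ I → (-(1 / 2) : ℝ) ≤ ∏ x ∈ J, (3 / 4 * ψ x + 1 / 4) ∧
      ∏ x ∈ J, (3 / 4 * ψ x + 1 / 4) ≤ 1 := by
    intro J
    induction J using Finset.induction_on with
    | empty => intro _; norm_num
    | insert a J ha ih =>
      intro hJ
      obtain ⟨h1, h2⟩ := ih (fun i hi => hJ (mem_insert_of_mem hi))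
      rw [prod_insert ha]
      rcases hψ a (hJ (mem_insert_self a J)) with h3 | h3
      · rw [h3]
        constructor <;> linarith
      · rw [h3]
        constructor <;> linarith
  obtain ⟨h1, _⟩ := key (I.erase i) (erase_subset _ _)
  rw [← hP] at h1
  linarith

/-- a heavy word: `8 |v| ≥ 3 (|N| + |I|)` -/
theorem heavy (n : ℕ) (V : Finset (Finset ℕ)) (hV : ∀ v ∈ V, v ⊆ range n) (h0 : ∅ ∈ V)
    (hs : ∀ v ∈ V, ∀ w ∈ V, symmDiff v w ∈ V) (N : Finset ℕ)
    (hN : ∀ j, j ∈ N ↔ ∃ v ∈ V, j ∈ v) :
    ∃ k : ℕ, V.card = 2 ^ k ∧ ∃ v ∈ V, 3 * (N.card + k) ≤ 8 * v.card := by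
  classical
  obtain ⟨I, hIn, hinj, hsurj⟩ := info n V hV h0 hs
  have hg : ∀ S, ∃ v, S ⊆ I → v ∈ V ∧ v ∩ I = S := by
    intro S
    by_cases hS : S ⊆ I
    · obtain ⟨v, hv⟩ := hsurj S hS
      exact ⟨v, fun _ => hv⟩
    · exact ⟨∅, fun h => absurd h hS⟩
  choose g hg using hg
  have hgg : ∀ v ∈ V, g (v ∩ I) = v := by
    intro v hv
    obtain ⟨h1, h2⟩ := hg (v ∩ I) inter_subset_right
    exact hinj _ h1 _ hv h2
  have hcard : V.card = 2 ^ I.card := by
    rw [← card_powerset]
    refine card_bij (fun v _ => v ∩ I) ?_ ?_ ?_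
    · intro v _
      rw [mem_powerset]
      exact inter_subset_right
    · intro v hv w hw h
      exact hinj v hv w hw h
    · intro S hS
      rw [mem_powerset] at hS
      obtain ⟨h1, h2⟩ := hg S hS
      exact ⟨g S, h1, h2⟩
  refine ⟨I.card, hcard, ?_⟩
  -- the biased distribution
  set wt : Finset ℕ → ℝ := fun S => (3 / 4 : ℝ) ^ S.card * (1 / 4) ^ (I \ S).card with hwt
  have hwt0 : ∀ S, 0 ≤ wt S := fun S => by rw [hwt]; positivity
  have htot : ∑ S ∈ I.powerset, wt S = 1 := by
    have h1 := expect_mul I (fun _ => 1) (fun _ _ _ _ _ => by norm_num) rfl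
    have h2 : ∏ i ∈ I, ((3 : ℝ) / 4 * 1 + 1 / 4) = 1 := by
      rw [prod_const]
      norm_num
    rw [h2] at h1
    simpa [hwt] using h1
  have hinsert : ∀ i ∈ I, ∀ S ⊆ I, i ∉ S → g (insert i S) = symmDiff (g {i}) (g S) := by
    intro i hi S hS hiS
    have h1 : insert i S ⊆ I := insert_subset hi hS
    obtain ⟨h2, h3⟩ := hg _ h1
    obtain ⟨h4, h5⟩ := hg {i} (singleton_subset_iff.2 hi)
    obtain ⟨h6, h7⟩ := hg S hS
    refine hinj _ h2 _ (hs _ h4 _ h6) ?_
    have h8 : symmDiff (g {i}) (g S) ∩ I = symmDiff (g {i} ∩ I) (g S ∩ I) := by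
      ext j
      simp only [mem_inter, mem_symmDiff]
      tauto
    rw [h3, h8, h5, h7]
    ext j
    simp only [mem_insert, mem_symmDiff, mem_singleton]
    constructor
    · rintro (rfl | h)
      · exact Or.inl ⟨rfl, hiS⟩
      · refine Or.inr ⟨h, ?_⟩
        rintro rfl
        exact hiS h
    · rintro (h | h)
      · exact Or.inl h.1
      · exact Or.inr h.1
  have hgempty : g ∅ = ∅ := by
    obtain ⟨h2, h3⟩ := hg ∅ (empty_subset _)
    exact hinj _ h2 _ h0 (by rw [h3]; simp)
  -- probability that `j` lies in the random word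
  set ψ : ℕ → Finset ℕ → ℝ := fun j S => if j ∈ g S then -1 else 1 with hψ
  have hψmul : ∀ j, ∀ i ∈ I, ∀ S ⊆ I, i ∉ S → ψ j (insert i S) = ψ j {i} * ψ j S := by
    intro j i hi S hS hiS
    rw [hψ]
    simp only
    rw [hinsert i hi S hS hiS]
    by_cases h1 : j ∈ g {i} <;> by_cases h2 : j ∈ g S <;> simp [mem_symmDiff, h1, h2]
  have hψ0 : ∀ j, ψ j ∅ = 1 := by
    intro j
    rw [hψ]
    simp [hgempty]
  have hexp : ∀ j, ∑ S ∈ I.powerset, wt S * ψ j S = ∏ i ∈ I, (3 / 4 * ψ j {i} + 1 / 4) :=
    fun j => expect_mul I (ψ j) (hψmul j) (hψ0 j)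
  have hprob : ∀ j, ∑ S ∈ I.powerset, wt S * (if j ∈ g S then (1 : ℝ) else 0) =
      (1 - ∑ S ∈ I.powerset, wt S * ψ j S) / 2 := by
    intro j
    have h1 : ∀ S ∈ I.powerset, wt S * (if j ∈ g S then (1 : ℝ) else 0) =
        (wt S - wt S * ψ j S) / 2 := by
      intro S _
      rw [hψ]
      by_cases h2 : j ∈ g S <;> simp [h2]
    rw [sum_congr rfl h1, ← sum_div, sum_sub_distrib, htot]
  have hpN : ∀ j ∈ N, 3 / 8 ≤ ∑ S ∈ I.powerset, wt S * (if j ∈ g S then (1 : ℝ) else 0) := by
    intro j hj
    rw [hprob, hexp]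
    have h1 : ∃ i ∈ I, ψ j {i} = -1 := by
      by_contra hcon
      push Not at hcon
      have h2 : ∀ S ⊆ I, j ∉ g S := by
        intro S
        induction S using Finset.induction_on with
        | empty => intro _; rw [hgempty]; simp
        | insert a S ha ih =>
          intro hS
          have h3 := ih (fun i hi => hS (mem_insert_of_mem hi))
          have h4 : j ∉ g {a} := by
            have := hcon a (hS (mem_insert_self a S))
            intro h5
            apply this
            rw [hψ]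
            simp [h5]
          rw [hinsert a (hS (mem_insert_self a S)) S (fun i hi => hS (mem_insert_of_mem hi)) ha]
          simp [mem_symmDiff, h3, h4]
      obtain ⟨v, hv, hjv⟩ := (hN j).1 hj
      have h3 := h2 (v ∩ I) inter_subset_right
      rw [hgg v hv] at h3
      exact h3 hjv
    have h2 := prod_le I (fun i => ψ j {i}) (by
      intro i _
      simp only [hψ]
      by_cases h3 : j ∈ g {i}
      · right; simp [h3]
      · left; simp [h3]) h1
    linarith
  have hpI : ∀ j ∈ I, 3 / 4 ≤ ∑ S ∈ I.powerset, wt S * (if j ∈ g S then (1 : ℝ) else 0) := by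
    intro j hj
    rw [hprob, hexp]
    have hval : ∀ i ∈ I, ψ j {i} = if i = j then -1 else 1 := by
      intro i hi
      obtain ⟨_, h2⟩ := hg {i} (singleton_subset_iff.2 hi)
      have h3 : j ∈ g {i} ↔ i = j := by
        have h4 : j ∈ g {i} ∩ I ↔ j ∈ ({i} : Finset ℕ) := by rw [h2]
        rw [mem_inter, mem_singleton] at h4
        constructor
        · intro h; exact (h4.1 ⟨h, hj⟩).symm
        · intro h; exact (h4.2 h.symm).1
      rw [hψ]
      simp only [h3]
    have h2 : ∏ i ∈ I, (3 / 4 * ψ j {i} + 1 / 4) = -(1 / 2) := by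
      rw [← mul_prod_erase I _ hj, hval j hj, prod_eq_one]
      · norm_num
      · intro i hi
        rw [mem_erase] at hi
        rw [hval i hi.2, if_neg hi.1]
        norm_num
    rw [h2]
    norm_num
  have hIN : I ⊆ N := by
    intro i hi
    obtain ⟨h1, h2⟩ := hg {i} (singleton_subset_iff.2 hi)
    rw [hN]
    refine ⟨g {i}, h1, ?_⟩
    have : i ∈ g {i} ∩ I := by rw [h2]; simp
    exact (mem_inter.1 this).1
  -- expected weight
  have hEw : (3 / 8 : ℝ) * ((N.card : ℝ) + I.card) ≤
      ∑ S ∈ I.powerset, wt S * ((g S).card : ℝ) := by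
    have h1 : ∀ S ∈ I.powerset, wt S * ((g S).card : ℝ) =
        ∑ j ∈ N, wt S * (if j ∈ g S then (1 : ℝ) else 0) := by
      intro S hS
      rw [mem_powerset] at hS
      rw [← mul_sum, sum_boole]
      congr 2
      congr 1
      ext j
      rw [mem_filter]
      exact ⟨fun h => ⟨(hN j).2 ⟨g S, (hg S hS).1, h⟩, h⟩, fun h => h.2⟩
    rw [sum_congr rfl h1, sum_comm, ← sum_sdiff hIN]
    have h2 : ((N \ I).card : ℝ) * (3 / 8) ≤ ∑ j ∈ N \ I, ∑ S ∈ I.powerset,
        wt S * (if j ∈ g S then (1 : ℝ) else 0) := by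
      rw [← nsmul_eq_mul]
      exact card_nsmul_le_sum _ _ _ fun j hj => hpN j (mem_sdiff.1 hj).1
    have h3 : (I.card : ℝ) * (3 / 4) ≤ ∑ j ∈ I, ∑ S ∈ I.powerset,
        wt S * (if j ∈ g S then (1 : ℝ) else 0) := by
      rw [← nsmul_eq_mul]
      exact card_nsmul_le_sum _ _ _ fun j hj => hpI j hj
    have h4 : ((N \ I).card : ℝ) = (N.card : ℝ) - I.card := by
      rw [card_sdiff_of_subset hIN, Nat.cast_sub (card_le_card hIN)]
    rw [h4] at h2
    linarith
  by_contra hcon
  push Not at hcon
  have h5 : ∀ S ∈ I.powerset, wt S * ((g S).card : ℝ) ≤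
      wt S * ((3 / 8 : ℝ) * ((N.card : ℝ) + I.card) - 1 / 8) := by
    intro S hS
    rw [mem_powerset] at hS
    refine mul_le_mul_of_nonneg_left ?_ (hwt0 S)
    have h6 := hcon (g S) (hg S hS).1
    have h7 : 8 * (g S).card + 1 ≤ 3 * (N.card + I.card) := h6
    have h8 : (8 : ℝ) * ((g S).card : ℝ) + 1 ≤ 3 * ((N.card : ℝ) + I.card) := by
      exact_mod_cast h7
    linarith
  have h6 := sum_le_sum h5
  rw [← sum_mul, htot, one_mul] at h6
  linarith

end Pool.Agent.H523R4.BC
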