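import Mathlib
import Pool.Agent.H523R4.ET
import Pool.Agent.H523R4.Heavy

set_option autoImplicit false

/-!
Sets of naturals closed under a bitwise affine operation in at least two variables.
-/

namespace Pool.Agent.H523R4.BC

open Finset

/-- `f` depends on its `i`-th variable -/
def DependsOn {k : ℕ} (f : (Fin k → Bool) → Bool) (i : Fin k) : Prop :=
  ∃ x : Fin k → Bool, f (Function.update x i (!x i)) ≠ f x

theorem affine_closed {ι : Type} {k : ℕ} (f : (Fin k → Bool) → Bool) (hf : IsAffine f)
    (h0 : f (fun _ => false) = false) (i j : Fin k) (hij : i ≠ j) (hi : DependsOn f i)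
    (hj : DependsOn f j) (C : Set (ι → Bool)) (hC : Closed f C) :
    ∀ a ∈ C, ∀ b ∈ C, ∀ c ∈ C, (fun l => (a l ^^ b l) ^^ c l) ∈ C := by
  classical
  have hadd : ∀ x y : Fin k → Bool, f (fun l => x l ^^ y l) = (f x ^^ f y) := by
    intro x y
    have h1 := hf x y (fun _ => false)
    rw [h0] at h1
    simpa using h1
  have hE : ∀ i, DependsOn f i → f (fun l => decide (l = i)) = true := by
    intro i hi
    obtain ⟨x, hx⟩ := hi
    have h1 : Function.update x i (!x i) = fun l => x l ^^ decide (l = i) := by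
      funext l
      by_cases hl : l = i
      · subst hl
        simp
      · simp [hl]
    rw [h1, hadd] at hx
    cases h2 : f (fun l => decide (l = i))
    · rw [h2] at hx
      simp at hx
    · rfl
  have hEi := hE i hi
  have hEj := hE j hj
  have hval : ∀ p q r : Bool, f (fun l => if l = i then p else if l = j then q else r) =
      ((p ^^ q) ^^ (r && f (fun _ => true))) := by
    intro p q r
    have h1 : (fun l => if l = i then p else if l = j then q else r) =
        (fun l => (((p ^^ r) && decide (l = i)) ^^ ((q ^^ r) && decide (l = j))) ^^ r) := by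
      funext l
      by_cases hl : l = i
      · subst hl
        have : l ≠ j := hij
        simp [this]
      · by_cases hl2 : l = j
        · subst hl2
          simp [hl]
        · simp [hl, hl2]
    rw [h1, hadd (fun l => ((p ^^ r) && decide (l = i)) ^^ ((q ^^ r) && decide (l = j)))
      (fun _ => r), hadd (fun l => (p ^^ r) && decide (l = i))
      (fun l => (q ^^ r) && decide (l = j))]
    have h2 : ∀ (s : Bool) (m : Fin k), f (fun l => decide (l = m)) = true →
        f (fun l => s && decide (l = m)) = s := by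
      intro s m hm
      cases s
      · simpa using h0
      · simpa using hm
    rw [h2 _ i hEi, h2 _ j hEj]
    have h3 : f (fun _ => r) = (r && f (fun _ => true)) := by
      cases r
      · simpa using h0
      · simp
    rw [h3]
    generalize f (fun _ => true) = s
    cases p <;> cases q <;> cases r <;> cases s <;> rfl
  have hcl : ∀ a ∈ C, ∀ b ∈ C, ∀ c ∈ C,
      (fun l => ((a l ^^ b l) ^^ (c l && f (fun _ => true)))) ∈ C := by
    intro a ha b hb c hc
    have h2 := hC (fun l => if l = i then a else if l = j then b else c) (by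
      intro l
      split_ifs
      · exact ha
      · exact hb
      · exact hc)
    have h3 : (fun s => f (fun l => (if l = i then a else if l = j then b else c) s)) =
        (fun l => ((a l ^^ b l) ^^ (c l && f (fun _ => true)))) := by
      funext s
      rw [← hval]
      congr 1
      funext l
      split_ifs <;> rfl
    rw [h3] at h2
    exact h2
  intro a ha b hb c hc
  cases h1 : f (fun _ => true) with
  | true =>
    have h2 := hcl a ha b hb c hc
    rw [h1] at h2
    simpa using h2
  | false =>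
    have h2 := hcl _ (hcl a ha b hb c hc) c hc c hc
    rw [h1] at h2
    simpa using h2

/-- many representations for sets closed under `a ⊕ b ⊕ c` -/
theorem main_xor {A : Set ℕ}
    (hz : ∀ a ∈ A, ∀ b ∈ A, ∀ c ∈ A, ∃ d ∈ A, ∀ j, d.testBit j =
      ((a.testBit j ^^ b.testBit j) ^^ c.testBit j))
    (n C : ℕ) (hcard : 2 ^ (n - C) ≤ ((A ∩ Set.Iio (2 ^ n)).ncard) ^ 2) :
    ∃ x < 2 ^ (n + 1), 2 ^ ((n - 11 * C) / 16) ≤ rep2 A x := by
  classical
  have hfin : (A ∩ Set.Iio (2 ^ n)).Finite := (Set.finite_Iio _).subset fun a ha => ha.2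
  set An := hfin.toFinset with hAn
  have hmemAn : ∀ a, a ∈ An ↔ a ∈ A ∧ a < 2 ^ n := by
    intro a
    rw [hAn, Set.Finite.mem_toFinset]
    rfl
  have hAnc : (A ∩ Set.Iio (2 ^ n)).ncard = An.card := Set.ncard_eq_toFinset_card _ hfin
  rw [hAnc] at hcard
  have hAn0 : An.Nonempty := by
    rw [← card_pos]
    by_contra hcon
    have h1 : An.card = 0 := by omega
    rw [h1] at hcard
    have : 0 < 2 ^ (n - C) := by positivity
    omega
  obtain ⟨c0, hc0⟩ := hAn0
  set φ : ℕ → Finset ℕ :=
    fun a => (range n).filter (fun j => (a.testBit j ^^ c0.testBit j) = true) with hφ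
  have hφj : ∀ a j, j < n → (j ∈ φ a ↔ (a.testBit j ^^ c0.testBit j) = true) := by
    intro a j hj
    rw [hφ]
    simp [hj]
  have hφinj : Set.InjOn φ An := by
    intro a ha b hb hab
    rw [mem_coe, hmemAn] at ha hb
    refine eq_of_bits ha.2 hb.2 fun j hj => ?_
    have h1 : j ∈ φ a ↔ j ∈ φ b := by rw [hab]
    rw [hφj a j hj, hφj b j hj] at h1
    revert h1
    cases a.testBit j <;> cases b.testBit j <;> cases c0.testBit j <;> simp
  set G := An.image φ with hG
  have hGc : G.card = An.card := card_image_of_injOn hφinj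
  have hGr : ∀ s ∈ G, s ⊆ range n := by
    intro s hs
    rw [hG, mem_image] at hs
    obtain ⟨a, _, rfl⟩ := hs
    exact filter_subset _ _
  have htern : ∀ a ∈ An, ∀ b ∈ An, ∀ c ∈ An, ∃ d ∈ An, ∀ j, d.testBit j =
      ((a.testBit j ^^ b.testBit j) ^^ c.testBit j) := by
    intro a ha b hb c hc
    rw [hmemAn] at ha hb hc
    obtain ⟨d, hd, hdb⟩ := hz a ha.1 b hb.1 c hc.1
    refine ⟨d, ?_, hdb⟩
    rw [hmemAn]
    refine ⟨hd, lt_of_bits fun j hj => ?_⟩
    have h0 : ∀ x, x < 2 ^ n → x.testBit j = false := fun x hx =>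
      Nat.testBit_lt_two_pow (lt_of_lt_of_le hx (Nat.pow_le_pow_right (by norm_num) hj))
    rw [hdb j, h0 a ha.2, h0 b hb.2, h0 c hc.2]
    rfl
  have hG0 : ∅ ∈ G := by
    rw [hG, mem_image]
    refine ⟨c0, hc0, ?_⟩
    rw [hφ]
    ext j
    simp
  have hGs : ∀ s ∈ G, ∀ s' ∈ G, symmDiff s s' ∈ G := by
    intro s hs s' hs'
    rw [hG, mem_image] at hs hs' ⊢
    obtain ⟨a, ha, rfl⟩ := hs
    obtain ⟨b, hb, rfl⟩ := hs'
    obtain ⟨c, hc, hcb⟩ := htern a ha b hb c0 hc0
    refine ⟨c, hc, ?_⟩
    rw [hφ]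
    ext j
    simp only [mem_filter, mem_symmDiff, mem_range, hcb j]
    cases a.testBit j <;> cases b.testBit j <;> cases c0.testBit j <;> simp
  set N := G.biUnion id with hN
  have hNmem : ∀ j, j ∈ N ↔ ∃ v ∈ G, j ∈ v := by
    intro j
    rw [hN, mem_biUnion]
    rfl
  have hNn : N.card ≤ n := by
    have h1 : N ⊆ range n := by
      intro j hj
      obtain ⟨v, hv, hjv⟩ := (hNmem j).1 hj
      exact hGr v hv hjv
    have := card_le_card h1
    rwa [card_range] at this
  obtain ⟨k, hk, v, hv, hvw⟩ := heavy n G hGr hG0 hGs N hNmem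
  have hvN : v ⊆ N := fun j hj => (hNmem j).2 ⟨v, hv, hj⟩
  -- size of `k`
  have hk2 : n ≤ 2 * k + C := by
    rw [← hGc, hk, ← pow_mul] at hcard
    have := (Nat.pow_le_pow_iff_right (by norm_num : 1 < 2)).1 hcard
    omega
  -- pigeonhole
  obtain ⟨b, hb, hbv⟩ := mem_image.1 (hG ▸ hv)
  have hflip : ∀ a, ∃ d, a ∈ An → d ∈ An ∧ ∀ j, d.testBit j =
      ((a.testBit j ^^ b.testBit j) ^^ c0.testBit j) := by
    intro a
    by_cases ha : a ∈ An
    · obtain ⟨d, hd, hdb⟩ := htern a ha b hb c0 hc0
      exact ⟨d, fun _ => ⟨hd, hdb⟩⟩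
    · exact ⟨0, fun h => absurd h ha⟩
  choose d hd using hflip
  set e := k - (N.card - v.card) with he
  have hcv : v.card ≤ N.card := card_le_card hvN
  have hee : (n - 11 * C) / 16 ≤ e := by omega
  by_cases hke : k < N.card - v.card
  · -- then the exponent is zero
    have h1 : (n - 11 * C) / 16 = 0 := by omega
    rw [h1, pow_zero]
    have hc0' := (hmemAn c0).1 hc0
    refine ⟨c0 + c0, by rw [pow_succ]; omega, ?_⟩
    unfold rep2
    rw [Nat.one_le_iff_ne_zero, ← Nat.pos_iff_ne_zero, Set.ncard_pos (rep2_finite A _)]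
    exact ⟨(c0, c0), hc0'.1, hc0'.1, rfl⟩
  push Not at hke
  have hph := exists_le_card_fiber_of_mul_le_card_of_maps_to (s := An)
    (t := (N \ v).powerset) (f := fun a => φ a ∩ (N \ v)) (n := 2 ^ e)
    (fun a _ => mem_powerset.2 inter_subset_right) ⟨∅, by simp⟩ (by
      rw [card_powerset, card_sdiff_of_subset hvN, ← hGc, hk, ← pow_add]
      exact Nat.pow_le_pow_right (by norm_num) (by omega))
  obtain ⟨Y, _, hY⟩ := hph
  set Fb := An.filter (fun a => φ a ∩ (N \ v) = Y) with hFb
  have hFb0 : Fb.Nonempty := by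
    rw [← card_pos]
    exact lt_of_lt_of_le (by positivity) hY
  obtain ⟨a0, ha0⟩ := hFb0
  have ha0' := mem_filter.1 ha0
  have hsum : ∀ a ∈ Fb, a + d a = a0 + d a0 := by
    intro a ha
    have ha' := mem_filter.1 ha
    have h1 := (hmemAn a).1 ha'.1
    have h2 := (hmemAn (d a)).1 (hd a ha'.1).1
    have h3 := (hmemAn a0).1 ha0'.1
    have h4 := (hmemAn (d a0)).1 (hd a0 ha0'.1).1
    suffices key : ∑ j ∈ range n, 2 ^ j * (a.testBit j).toNat +
        ∑ j ∈ range n, 2 ^ j * ((d a).testBit j).toNat =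
        ∑ j ∈ range n, 2 ^ j * (a0.testBit j).toNat +
        ∑ j ∈ range n, 2 ^ j * ((d a0).testBit j).toNat by
      rw [← mod_eq_sum, ← mod_eq_sum, ← mod_eq_sum, ← mod_eq_sum, Nat.mod_eq_of_lt h1.2,
        Nat.mod_eq_of_lt h2.2, Nat.mod_eq_of_lt h3.2, Nat.mod_eq_of_lt h4.2] at key
      exact key
    rw [← sum_add_distrib, ← sum_add_distrib]
    refine sum_congr rfl fun j hj => ?_
    rw [mem_range] at hj
    rw [← mul_add, ← mul_add]
    congr 1
    rw [(hd a ha'.1).2 j, (hd a0 ha0'.1).2 j]
    by_cases hjv : j ∈ v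
    · have h5 : (b.testBit j ^^ c0.testBit j) = true := by
        rw [← hbv] at hjv
        exact (hφj b j hj).1 hjv
      revert h5
      cases a.testBit j <;> cases a0.testBit j <;> cases b.testBit j <;>
        cases c0.testBit j <;> simp
    · have h5 : (b.testBit j ^^ c0.testBit j) = false := by
        have h6 : ¬ (b.testBit j ^^ c0.testBit j) = true := by
          rw [← hφj b j hj, hbv]
          exact hjv
        simpa using h6
      have h7 : a.testBit j = a0.testBit j := by
        by_cases hjN : j ∈ N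
        · have h8 : j ∈ φ a ↔ j ∈ φ a0 := by
            have h9 : φ a ∩ (N \ v) = φ a0 ∩ (N \ v) := ha'.2.trans ha0'.2.symm
            have h10 : j ∈ φ a ∩ (N \ v) ↔ j ∈ φ a0 ∩ (N \ v) := by rw [h9]
            simpa [hjN, hjv] using h10
          rw [hφj a j hj, hφj a0 j hj] at h8
          revert h8
          cases a.testBit j <;> cases a0.testBit j <;> cases c0.testBit j <;> simp
        · have h8 : ∀ y ∈ An, y.testBit j = c0.testBit j := by
            intro y hy
            have h9 : j ∉ φ y := fun h => hjN ((hNmem j).2 ⟨φ y, mem_image_of_mem φ hy, h⟩)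
            rw [hφj y j hj] at h9
            revert h9
            cases y.testBit j <;> cases c0.testBit j <;> simp
          rw [h8 a ha'.1, h8 a0 ha0'.1]
      rw [h7]
  refine ⟨a0 + d a0, ?_, ?_⟩
  · have h1 := (hmemAn a0).1 ha0'.1
    have h2 := (hmemAn (d a0)).1 (hd a0 ha0'.1).1
    rw [pow_succ]
    omega
  · have h1 : ((Fb.image (fun a => (a, d a)) : Finset (ℕ × ℕ)) : Set (ℕ × ℕ)) ⊆
        {p : ℕ × ℕ | p.1 ∈ A ∧ p.2 ∈ A ∧ p.1 + p.2 = a0 + d a0} := by
      intro p hp
      rw [mem_coe, mem_image] at hp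
      obtain ⟨a, ha, rfl⟩ := hp
      have ha' := mem_filter.1 ha
      exact ⟨((hmemAn a).1 ha'.1).1, ((hmemAn (d a)).1 (hd a ha'.1).1).1, hsum a ha⟩
    have h2 := Set.ncard_le_ncard h1 (rep2_finite A _)
    rw [Set.ncard_coe_finset, card_image_of_injective _ (fun a b h => congrArg Prod.fst h)] at h2
    calc 2 ^ ((n - 11 * C) / 16) ≤ 2 ^ e := Nat.pow_le_pow_right (by norm_num) hee
      _ ≤ Fb.card := hY
      _ ≤ _ := h2

end Pool.Agent.H523R4.BC
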