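import Mathlib
import Pool.Agent.H523R4.Basis
import Pool.Agent.H523R4.Xor

set_option autoImplicit false

/-!
Power lower bounds for the representation function.
-/

namespace Pool.Agent.H523R4.BC

open Finset Filter

theorem freq {r : ℕ → ℕ} {c : ℝ} (h : ∀ M : ℕ, ∃ x, M < r x ∧ (x : ℝ) ^ c ≤ r x) :
    ∃ᶠ x : ℕ in atTop, (x : ℝ) ^ c ≤ r x := by
  rw [frequently_atTop]
  intro X
  obtain ⟨x, hx1, hx2⟩ := h ((range X).sup r)
  refine ⟨x, ?_, hx2⟩
  by_contra hcon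
  push Not at hcon
  have : r x ≤ (range X).sup r := le_sup (f := r) (mem_range.2 hcon)
  omega

/-- from powers of two to powers of `x`, unordered representations -/
theorem finish {A : Set ℕ} {h : ℕ} (hh : 2 ≤ h) {a0 : ℕ} (ha0 : a0 ∈ A) {c : ℝ} (hc : 0 < c)
    (hc1 : c ≤ 1) (H : ∃ᶠ n : ℕ in atTop, ∃ x < 2 ^ (n + 1), (2 : ℝ) ^ (c * n) ≤ rep2 A x) :
    ∃ᶠ x : ℕ in atTop, (x : ℝ) ^ (c / 8) ≤ ((reps A h x).ncard : ℝ) := by
  refine freq (r := fun x => (reps A h x).ncard) fun M => ?_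
  set K := (h - 2) * a0 with hK
  rw [frequently_atTop] at H
  obtain ⟨n, hn, x, hx, hrep⟩ := H (K + 2 + ⌈2 * ((M : ℝ) + 1) / c⌉₊ + ⌈2 / c⌉₊)
  have hn1 : K + 2 ≤ n := by omega
  have hn2 : 2 * ((M : ℝ) + 1) / c ≤ n := by
    refine (Nat.le_ceil _).trans ?_
    exact_mod_cast (by omega : ⌈2 * ((M : ℝ) + 1) / c⌉₊ ≤ n)
  have hn3 : 2 / c ≤ (n : ℝ) := by
    refine (Nat.le_ceil _).trans ?_
    exact_mod_cast (by omega : ⌈2 / c⌉₊ ≤ n)
  have hn2' : 2 * ((M : ℝ) + 1) ≤ c * n := by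
    rw [div_le_iff₀ hc] at hn2
    linarith
  have hn3' : 2 ≤ c * n := by
    rw [div_le_iff₀ hc] at hn3
    linarith
  have hle := rep2_le hh ha0 x
  rw [← hK] at hle
  have hle' : (rep2 A x : ℝ) ≤ 2 * ((reps A h (x + K)).ncard : ℝ) := by exact_mod_cast hle
  have hbig : (2 : ℝ) ^ (c * n / 2) ≤ ((reps A h (x + K)).ncard : ℝ) := by
    have h1 : (2 : ℝ) ^ (c * n / 2) * 2 ≤ (2 : ℝ) ^ (c * n) := by
      calc (2 : ℝ) ^ (c * n / 2) * 2 = (2 : ℝ) ^ (c * n / 2) * (2 : ℝ) ^ (1 : ℝ) := by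
            rw [Real.rpow_one]
        _ = (2 : ℝ) ^ (c * n / 2 + 1) := by rw [Real.rpow_add (by norm_num)]
        _ ≤ (2 : ℝ) ^ (c * n) := Real.rpow_le_rpow_of_exponent_le (by norm_num) (by linarith)
    linarith
  refine ⟨x + K, ?_, ?_⟩
  · have h1 : (M : ℝ) < (2 : ℝ) ^ (c * n / 2) := by
      calc (M : ℝ) < (2 : ℝ) ^ (M : ℝ) := by
            rw [Real.rpow_natCast]
            exact_mod_cast Nat.lt_two_pow_self
        _ ≤ (2 : ℝ) ^ (c * n / 2) :=
            Real.rpow_le_rpow_of_exponent_le (by norm_num) (by linarith)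
    have h2 : (M : ℝ) < ((reps A h (x + K)).ncard : ℝ) := lt_of_lt_of_le h1 hbig
    exact_mod_cast h2
  · have h1 : x + K ≤ 2 ^ (n + 2) := by
      have h2 : K < 2 ^ n := lt_of_lt_of_le (Nat.lt_two_pow_self)
        (Nat.pow_le_pow_right (by norm_num) (by omega))
      have h3 : 2 ^ (n + 1) = 2 * 2 ^ n := by rw [pow_succ]; ring
      have h4 : 2 ^ (n + 2) = 4 * 2 ^ n := by rw [pow_add]; ring
      omega
    have h2 : ((x + K : ℕ) : ℝ) ≤ (2 : ℝ) ^ ((n : ℝ) + 2) := by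
      have : ((x + K : ℕ) : ℝ) ≤ ((2 ^ (n + 2) : ℕ) : ℝ) := by exact_mod_cast h1
      refine this.trans (le_of_eq ?_)
      rw [show ((n : ℝ) + 2) = ((n + 2 : ℕ) : ℝ) by push_cast; ring, Real.rpow_natCast]
      push_cast
      rfl
    calc ((x + K : ℕ) : ℝ) ^ (c / 8) ≤ ((2 : ℝ) ^ ((n : ℝ) + 2)) ^ (c / 8) :=
          Real.rpow_le_rpow (by positivity) h2 (by positivity)
      _ = (2 : ℝ) ^ (((n : ℝ) + 2) * (c / 8)) := by rw [← Real.rpow_mul (by norm_num)]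
      _ ≤ (2 : ℝ) ^ (c * n / 2) := by
          refine Real.rpow_le_rpow_of_exponent_le (by norm_num) ?_
          nlinarith
      _ ≤ _ := hbig

/-- non-affine operations: many elements below `2 ^ n` give large values of the representation
function -/
theorem power_bit (ε : ℝ) (hε : 0 < ε) (hε1 : ε ≤ 1) : ∃ c : ℝ, 0 < c ∧ c ≤ 1 ∧ ∀ᶠ n : ℕ in atTop,
    ∀ (k : ℕ) (f : (Fin k → Bool) → Bool), ¬ IsAffine f → ∀ A : Set ℕ, BitClosed f A →
      (2 : ℝ) ^ (ε * n) ≤ ((A ∩ Set.Iio (2 ^ n)).ncard : ℝ) →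
      ∃ x < 2 ^ (n + 1), (2 : ℝ) ^ (c * n) ≤ rep2 A x := by
  set q := ⌈8 / ε⌉₊ with hq
  have hq8 : 8 / ε ≤ (q : ℝ) := Nat.le_ceil _
  have hqpos : (0 : ℝ) < q := lt_of_lt_of_le (by positivity) hq8
  have hq1 : 1 ≤ q := by exact_mod_cast hqpos
  obtain ⟨l, hl⟩ : ∃ l : ℕ, l = q := ⟨q, rfl⟩
  have hql : q < 2 ^ l := by rw [hl]; exact Nat.lt_two_pow_self
  set g : ℝ := ε / (8 * l) with hg
  have hlpos : (0 : ℝ) < l := by rw [hl]; exact hqpos
  have hgpos : 0 < g := by positivity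
  have hg1 : g ≤ 1 := by
    rw [hg, div_le_one (by positivity)]
    have : (1 : ℝ) ≤ l := by rw [hl]; exact_mod_cast hq1
    linarith
  refine ⟨g ^ 2 / 20, by positivity, by nlinarith, ?_⟩
  filter_upwards [eventually_ge_atTop (⌈1 / g⌉₊ + ⌈20 / g ^ 2⌉₊ + 2)] with n hn k f hf A hA hcard
  have hn1 : 1 / g ≤ (n : ℝ) := by
    refine (Nat.le_ceil _).trans ?_
    exact_mod_cast (by omega : ⌈1 / g⌉₊ ≤ n)
  have hn2 : 20 / g ^ 2 ≤ (n : ℝ) := by
    refine (Nat.le_ceil _).trans ?_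
    exact_mod_cast (by omega : ⌈20 / g ^ 2⌉₊ ≤ n)
  have hn1' : 1 ≤ g * n := by
    rw [div_le_iff₀ hgpos] at hn1
    linarith
  have hn2' : 20 ≤ g ^ 2 * n := by
    rw [div_le_iff₀ (by positivity)] at hn2
    linarith
  have hnpos : (0 : ℝ) < n := by
    have : 2 ≤ n := by omega
    exact_mod_cast (by omega : 0 < n)
  set t := ⌊2 * g * n⌋₊ with ht
  have ht1 : (t : ℝ) ≤ 2 * g * n := Nat.floor_le (by positivity)
  have ht2 : g * n ≤ (t : ℝ) := by
    have := Nat.lt_floor_add_one (2 * g * n)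
    rw [← ht] at this
    linarith
  have hsum : ∑ k ∈ range (t + 1), n.choose k < (A ∩ Set.Iio (2 ^ n)).ncard := by
    have h1 := sum_choose_le n t q hq1
    have h2 : (q : ℝ) ^ n * (∑ k ∈ range (t + 1), n.choose k : ℕ) ≤ ((q : ℝ) + 1) ^ n * q ^ t := by
      exact_mod_cast h1
    have h3 : ((q : ℝ) + 1) ^ n ≤ (q : ℝ) ^ n * (2 : ℝ) ^ (ε * n / 4) := by
      have h4 : (q : ℝ) + 1 ≤ q * Real.exp (1 / q) := by
        have h5 := Real.add_one_le_exp (1 / (q : ℝ))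
        have h6 : (q : ℝ) * (1 / q + 1) ≤ q * Real.exp (1 / q) :=
          mul_le_mul_of_nonneg_left h5 hqpos.le
        have h7 : (q : ℝ) * (1 / q + 1) = q + 1 := by
          rw [mul_add, mul_one_div_cancel hqpos.ne', mul_one]; ring
        linarith
      have h5 : ((q : ℝ) + 1) ^ n ≤ ((q : ℝ) * Real.exp (1 / q)) ^ n :=
        pow_le_pow_left₀ (by positivity) h4 n
      refine h5.trans ?_
      rw [mul_pow]
      refine mul_le_mul_of_nonneg_left ?_ (by positivity)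
      rw [← Real.exp_nat_mul, Real.rpow_def_of_pos (by norm_num : (0 : ℝ) < 2)]
      rw [Real.exp_le_exp]
      have h6 : 1 / (q : ℝ) ≤ ε / 8 := by
        rw [div_le_iff₀ hqpos]
        rw [div_le_iff₀ hε] at hq8
        linarith
      have h7 := Real.log_two_gt_d9
      have h8 : (n : ℝ) * (1 / q) ≤ n * (ε / 8) := mul_le_mul_of_nonneg_left h6 hnpos.le
      have h9 : n * (ε / 8) ≤ Real.log 2 * (ε * n / 4) := by
        have h10 : 0 < ε * n := by positivity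
        nlinarith
      linarith
    have h4 : (q : ℝ) ^ t ≤ (2 : ℝ) ^ (ε * n / 4) := by
      calc (q : ℝ) ^ t ≤ ((2 : ℝ) ^ l) ^ t := by
            refine pow_le_pow_left₀ hqpos.le ?_ t
            exact_mod_cast hql.le
        _ = (2 : ℝ) ^ ((l : ℝ) * t) := by
            rw [← pow_mul, ← Real.rpow_natCast]
            push_cast
            rfl
        _ ≤ (2 : ℝ) ^ (ε * n / 4) := by
            refine Real.rpow_le_rpow_of_exponent_le (by norm_num) ?_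
            have h5 : (l : ℝ) * t ≤ l * (2 * g * n) := mul_le_mul_of_nonneg_left ht1 hlpos.le
            have h6 : (l : ℝ) * (2 * g * n) = ε * n / 4 := by
              rw [hg]
              field_simp
              ring
            linarith
    have h5 : (q : ℝ) ^ n * (∑ k ∈ range (t + 1), n.choose k : ℕ) ≤
        (q : ℝ) ^ n * (2 : ℝ) ^ (ε * n / 2) := by
      refine h2.trans ?_
      calc ((q : ℝ) + 1) ^ n * q ^ t ≤ ((q : ℝ) ^ n * (2 : ℝ) ^ (ε * n / 4)) *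
            (2 : ℝ) ^ (ε * n / 4) := mul_le_mul h3 h4 (by positivity) (by positivity)
        _ = (q : ℝ) ^ n * (2 : ℝ) ^ (ε * n / 2) := by
            rw [mul_assoc, ← Real.rpow_add (by norm_num)]
            congr 2
            ring
    have h6 : ((∑ k ∈ range (t + 1), n.choose k : ℕ) : ℝ) ≤ (2 : ℝ) ^ (ε * n / 2) :=
      le_of_mul_le_mul_left h5 (by positivity)
    have h7 : (2 : ℝ) ^ (ε * n / 2) < (2 : ℝ) ^ (ε * n) := by
      refine Real.rpow_lt_rpow_of_exponent_lt (by norm_num) ?_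
      have : 0 < ε * n := by positivity
      linarith
    have h8 : ((∑ k ∈ range (t + 1), n.choose k : ℕ) : ℝ) < ((A ∩ Set.Iio (2 ^ n)).ncard : ℝ) :=
      lt_of_le_of_lt h6 (lt_of_lt_of_le h7 hcard)
    exact_mod_cast h8
  obtain ⟨x, hx, hrep⟩ := main_bit f hf A hA n t hsum
  refine ⟨x, hx, ?_⟩
  have h1 : ((2 ^ (t ^ 2 / (10 * n)) : ℕ) : ℝ) ≤ (rep2 A x : ℝ) := by exact_mod_cast hrep
  refine le_trans ?_ h1
  rw [Nat.cast_pow, Nat.cast_ofNat, ← Real.rpow_natCast 2 (t ^ 2 / (10 * n))]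
  refine Real.rpow_le_rpow_of_exponent_le (by norm_num) ?_
  have h2 : (t : ℝ) ^ 2 / (10 * n) < ((t ^ 2 / (10 * n) : ℕ) : ℝ) + 1 := by
    have h3 := Nat.lt_mul_div_succ (t ^ 2) (show 0 < 10 * n by omega)
    rw [div_lt_iff₀ (by positivity)]
    have h4 : ((t ^ 2 : ℕ) : ℝ) < ((10 * n * (t ^ 2 / (10 * n) + 1) : ℕ) : ℝ) := by
      exact_mod_cast h3
    rw [Nat.cast_mul, Nat.cast_add, Nat.cast_pow] at h4
    push_cast at h4 ⊢
    linarith
  have h3 : g ^ 2 * n / 10 ≤ (t : ℝ) ^ 2 / (10 * n) := by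
    rw [div_le_div_iff₀ (by norm_num) (by positivity)]
    have h4 : (g * n) ^ 2 ≤ (t : ℝ) ^ 2 := pow_le_pow_left₀ (by positivity) ht2 2
    nlinarith
  linarith

end Pool.Agent.H523R4.BC
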