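import Mathlib
import Pool.Agent.H523R4.Final

set_option autoImplicit false

/-!
Bases which are finite unions of sets closed under bitwise operations.
-/

namespace Pool.Agent.H523R4.BC

open Finset Filter

theorem zero_of_closed {k : ℕ} {f : (Fin k → Bool) → Bool} {A : Set ℕ} (hA : BitClosed f A)
    (hne : A.Nonempty) : f (fun _ => false) = false := by
  obtain ⟨a0, ha0⟩ := hne
  obtain ⟨b, _, hb⟩ := hA (fun _ => a0) (fun _ => ha0)
  have h1 : b.testBit (a0 + b) = false := Nat.testBit_lt_two_pow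
    (lt_of_lt_of_le Nat.lt_two_pow_self (Nat.pow_le_pow_right (by norm_num) (by omega)))
  have h2 : a0.testBit (a0 + b) = false := Nat.testBit_lt_two_pow
    (lt_of_lt_of_le Nat.lt_two_pow_self (Nat.pow_le_pow_right (by norm_num) (by omega)))
  have h3 := hb (a0 + b)
  rw [h1] at h3
  have h4 : (fun _ : Fin k => false) = (fun _ : Fin k => a0.testBit (a0 + b)) := by
    funext i
    exact h2.symm
  rw [h4]
  exact h3.symm

theorem bits_closed {k : ℕ} {f : (Fin k → Bool) → Bool} {A : Set ℕ} (hA : BitClosed f A) :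
    Closed f {v : ℕ → Bool | ∃ a ∈ A, v = a.testBit} := by
  intro v hv
  choose a ha hav using hv
  obtain ⟨b, hb, hbb⟩ := hA a ha
  refine ⟨b, hb, ?_⟩
  funext j
  rw [hbb j]
  congr 1
  funext i
  rw [hav i]

theorem rep2_mono {A B : Set ℕ} (h : B ⊆ A) (x : ℕ) : rep2 B x ≤ rep2 A x :=
  Set.ncard_le_ncard (fun _ hp => ⟨h hp.1, h hp.2.1, hp.2.2⟩) (rep2_finite A x)

theorem exists_frequently {m : ℕ} {P : Fin m → ℕ → Prop} (h : ∀ᶠ n : ℕ in atTop, ∃ i, P i n) :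
    ∃ i, ∃ᶠ n : ℕ in atTop, P i n := by
  by_contra hcon
  push Not at hcon
  have h2 := eventually_all.2 hcon
  obtain ⟨n, hn1, hn2⟩ := (h.and h2).exists
  obtain ⟨i, hi⟩ := hn1
  exact hn2 i hi

/-- some member of a finite union contains a positive proportion -/
theorem exists_part {m : ℕ} {A : Set ℕ} {B : Fin m → Set ℕ} (hAB : A = ⋃ i, B i) (N : ℕ)
    (hpos : 0 < (A ∩ Set.Iio N).ncard) :
    ∃ i, (A ∩ Set.Iio N).ncard ≤ m * (B i ∩ Set.Iio N).ncard := by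
  classical
  by_contra hcon
  push Not at hcon
  have h1 : A ∩ Set.Iio N = ⋃ i, (B i ∩ Set.Iio N) := by
    rw [hAB, Set.iUnion_inter]
  have hfin : ∀ i, (B i ∩ Set.Iio N).Finite := fun i =>
    (Set.finite_Iio N).subset Set.inter_subset_right
  have h2 : (A ∩ Set.Iio N).ncard ≤ ∑ i, (B i ∩ Set.Iio N).ncard := by
    rw [h1]
    have h3 : (⋃ i, (B i ∩ Set.Iio N)) =
        ((Finset.univ.biUnion (fun i => (hfin i).toFinset) : Finset ℕ) : Set ℕ) := by
      ext x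
      simp
    rw [h3, Set.ncard_coe_finset]
    refine card_biUnion_le.trans (le_of_eq ?_)
    refine sum_congr rfl fun i _ => ?_
    rw [Set.ncard_eq_toFinset_card _ (hfin i)]
  rcases Nat.eq_zero_or_pos m with h0 | h0
  · subst h0
    simp at h2
    omega
  · have h3 : ∑ i, m * (B i ∩ Set.Iio N).ncard < ∑ _i : Fin m, (A ∩ Set.Iio N).ncard :=
      sum_lt_sum_of_nonempty ⟨⟨0, h0⟩, mem_univ _⟩ (fun i _ => hcon i)
    rw [← mul_sum, sum_const, card_univ, Fintype.card_fin, smul_eq_mul] at h3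
    have h4 : m * (A ∩ Set.Iio N).ncard ≤ m * ∑ i, (B i ∩ Set.Iio N).ncard :=
      Nat.mul_le_mul_left _ h2
    omega

theorem basis_nonempty {A : Set ℕ} {h : ℕ} (hh : 2 ≤ h) {n0 : ℕ}
    (hn0 : ∀ n : ℕ, n0 ≤ n → (reps A h n).Nonempty) : ∃ a0, a0 ∈ A := by
  obtain ⟨s, hs, hsA, _⟩ := hn0 n0 le_rfl
  have : s ≠ 0 := by
    rintro rfl
    simp only [Multiset.card_zero] at hs
    omega
  obtain ⟨a, ha⟩ := Multiset.exists_mem_of_ne_zero this
  exact ⟨a, hsA a ha⟩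

/-- the parts of a basis -/
theorem basis_part {A : Set ℕ} {h : ℕ} {n0 m : ℕ} {B : Fin m → Set ℕ} (hAB : A = ⋃ i, B i)
    (hn0 : ∀ n : ℕ, n0 ≤ n → (reps A h n).Nonempty) (hh : 2 ≤ h) :
    ∃ i, ∃ᶠ n : ℕ in atTop, 2 ^ (n - 1) ≤ (m * (B i ∩ Set.Iio (2 ^ n)).ncard) ^ h := by
  refine exists_frequently ?_
  filter_upwards [eventually_ge_atTop (n0 + 2)] with n hn
  have h1 := count_of_basis' hn0 n hn
  have hpos : 0 < (A ∩ Set.Iio (2 ^ n)).ncard := by
    by_contra hcon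
    have h2 : (A ∩ Set.Iio (2 ^ n)).ncard = 0 := by omega
    rw [h2, zero_pow (by omega)] at h1
    have : 0 < 2 ^ (n - 1) := by positivity
    omega
  obtain ⟨i, hi⟩ := exists_part hAB (2 ^ n) hpos
  exact ⟨i, h1.trans (Nat.pow_le_pow_left hi h)⟩

/-- real form -/
theorem part_real {b h m : ℕ} (hh : 2 ≤ h) {n : ℕ} (h1 : 2 ^ (n - 1) ≤ (m * b) ^ h)
    (hn : 4 * h * (m + 1) ≤ n) : (2 : ℝ) ^ ((1 / (4 * h) : ℝ) * n) ≤ b := by
  by_contra hcon
  push Not at hcon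
  have hh0 : (0 : ℝ) < h := by exact_mod_cast (by omega : 0 < h)
  have hn0 : 1 ≤ n := by nlinarith
  have h2 : ((m : ℝ) * b) ^ h < (2 : ℝ) ^ ((n : ℝ) / 2) ∨ m = 0 := by
    rcases Nat.eq_zero_or_pos m with h0 | h0
    · exact Or.inr h0
    left
    have hm : (m : ℝ) ≤ (2 : ℝ) ^ ((1 / (4 * h) : ℝ) * n) := by
      have h3 : (m : ℝ) ≤ (2 : ℝ) ^ (m : ℝ) := by
        rw [Real.rpow_natCast]
        exact_mod_cast (Nat.lt_two_pow_self (n := m)).le
      refine h3.trans (Real.rpow_le_rpow_of_exponent_le (by norm_num) ?_)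
      rw [one_div, inv_mul_eq_div, le_div_iff₀ (by positivity)]
      have : m * (4 * h) ≤ n := by nlinarith
      exact_mod_cast this
    have h3 : (m : ℝ) * b < (2 : ℝ) ^ ((1 / (4 * h) : ℝ) * n) * (2 : ℝ) ^ ((1 / (4 * h) : ℝ) * n) := by
      have hm0 : (0 : ℝ) < m := by exact_mod_cast h0
      calc (m : ℝ) * b < m * (2 : ℝ) ^ ((1 / (4 * h) : ℝ) * n) :=
            mul_lt_mul_of_pos_left hcon hm0
        _ ≤ _ := mul_le_mul_of_nonneg_right hm (by positivity)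
    calc ((m : ℝ) * b) ^ h < ((2 : ℝ) ^ ((1 / (4 * h) : ℝ) * n) *
          (2 : ℝ) ^ ((1 / (4 * h) : ℝ) * n)) ^ h :=
          pow_lt_pow_left₀ h3 (by positivity) (by omega)
      _ = (2 : ℝ) ^ ((n : ℝ) / 2) := by
          rw [← Real.rpow_add (by norm_num), ← Real.rpow_natCast, ← Real.rpow_mul (by norm_num)]
          congr 1
          field_simp
          ring
  have h3 : (2 : ℝ) ^ ((n : ℝ) - 1) ≤ ((m : ℝ) * b) ^ h := by
    have h4 : ((2 ^ (n - 1) : ℕ) : ℝ) ≤ (((m * b) ^ h : ℕ) : ℝ) := by exact_mod_cast h1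
    have h5 : ((n : ℝ) - 1) = ((n - 1 : ℕ) : ℝ) := by
      rw [Nat.cast_sub hn0]; simp
    rw [h5, Real.rpow_natCast]
    push_cast at h4
    exact h4
  rcases h2 with h2 | h2
  · have h4 : (2 : ℝ) ^ ((n : ℝ) / 2) ≤ (2 : ℝ) ^ ((n : ℝ) - 1) := by
      refine Real.rpow_le_rpow_of_exponent_le (by norm_num) ?_
      have : (2 : ℝ) ≤ n := by
        have : 2 ≤ n := by nlinarith
        exact_mod_cast this
      linarith
    linarith
  · subst h2
    have h4 : (0 : ℝ) < (2 : ℝ) ^ ((n : ℝ) - 1) := by positivity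
    rw [Nat.cast_zero, zero_mul, zero_pow (by omega)] at h3
    linarith

/-- bases of order `h` -/
theorem union_nonaffine (h : ℕ) (hh : 2 ≤ h) : ∃ c : ℝ, 0 < c ∧
    ∀ (A : Set ℕ) (m : ℕ) (B : Fin m → Set ℕ), A = ⋃ i, B i →
      (∀ i, ∃ (k : ℕ) (f : (Fin k → Bool) → Bool), ¬ IsAffine f ∧ BitClosed f (B i)) →
      (∃ n0, ∀ x : ℕ, n0 ≤ x → (reps A h x).Nonempty) →
      ∃ᶠ x : ℕ in atTop, (x : ℝ) ^ c ≤ ((reps A h x).ncard : ℝ) := by
  have hh0 : (0 : ℝ) < h := by exact_mod_cast (by omega : 0 < h)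
  have hε1 : (1 / (4 * h) : ℝ) ≤ 1 := by
    rw [div_le_one (by positivity)]
    have : (1 : ℝ) ≤ h := by exact_mod_cast (by omega : 1 ≤ h)
    linarith
  obtain ⟨c, hc, hc1, H⟩ := power_bit (1 / (4 * h)) (by positivity) hε1
  refine ⟨c / 8, by positivity, ?_⟩
  rintro A m B hAB hB ⟨n0, hn0⟩
  obtain ⟨a0, ha0⟩ := basis_nonempty hh hn0
  obtain ⟨i, hi⟩ := basis_part hAB hn0 hh
  obtain ⟨k, f, hf, hfB⟩ := hB i
  refine finish hh ha0 hc hc1 ?_
  refine (hi.and_eventually (H.and (eventually_ge_atTop (4 * h * (m + 1))))).mono ?_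
  rintro n ⟨h1, h2, h3⟩
  obtain ⟨x, hx, hrep⟩ := h2 k f hf (B i) hfB (part_real hh h1 h3)
  refine ⟨x, hx, hrep.trans ?_⟩
  have hsub : B i ⊆ A := by
    rw [hAB]
    exact Set.subset_iUnion B i
  exact_mod_cast rep2_mono hsub x

/-- bases of order two -/
theorem union_two : ∃ c : ℝ, 0 < c ∧
    ∀ (A : Set ℕ) (m : ℕ) (B : Fin m → Set ℕ), A = ⋃ i, B i →
      (∀ i, ∃ (k : ℕ) (f : (Fin k → Bool) → Bool),
        (∃ j j' : Fin k, j ≠ j' ∧ DependsOn f j ∧ DependsOn f j') ∧ BitClosed f (B i)) →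
      (∃ n0, ∀ x : ℕ, n0 ≤ x → (reps A 2 x).Nonempty) →
      ∃ᶠ x : ℕ in atTop, (x : ℝ) ^ c ≤ ((reps A 2 x).ncard : ℝ) := by
  have hε1 : (1 / (4 * (2 : ℕ)) : ℝ) ≤ 1 := by norm_num
  obtain ⟨c', hc', hc1', H⟩ := power_bit (1 / (4 * (2 : ℕ))) (by norm_num) hε1
  set c := min c' (1 / 32) with hcdef
  have hc : 0 < c := lt_min hc' (by norm_num)
  have hc1 : c ≤ 1 := (min_le_left _ _).trans hc1'
  refine ⟨c / 8, by positivity, ?_⟩
  rintro A m B hAB hB ⟨n0, hn0⟩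
  obtain ⟨a0, ha0⟩ := basis_nonempty le_rfl hn0
  obtain ⟨i, hi⟩ := basis_part hAB hn0 le_rfl
  obtain ⟨k, f, ⟨j, j', hjj, hj, hj'⟩, hfB⟩ := hB i
  have hsub : B i ⊆ A := by
    rw [hAB]
    exact Set.subset_iUnion B i
  refine finish le_rfl ha0 hc hc1 ?_
  by_cases hf : IsAffine f
  · refine (hi.and_eventually (eventually_ge_atTop (44 * (m + 1) + 100))).mono ?_
    rintro n ⟨h1, h3⟩
    -- the part is nonempty
    have hmb : 0 < m * (B i ∩ Set.Iio (2 ^ n)).ncard := by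
      by_contra hcon
      have h2 : m * (B i ∩ Set.Iio (2 ^ n)).ncard = 0 := by omega
      rw [h2] at h1
      have : 0 < 2 ^ (n - 1) := by positivity
      simp at h1
    have hbne : (B i).Nonempty := by
      have h2 : 0 < (B i ∩ Set.Iio (2 ^ n)).ncard := Nat.pos_of_mul_pos_left hmb
      obtain ⟨b, hb⟩ := (Set.ncard_pos ((Set.finite_Iio (2 ^ n)).subset
        Set.inter_subset_right)).1 h2
      exact ⟨b, hb.1⟩
    have h0 := zero_of_closed hfB hbne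
    have hcl := affine_closed f hf h0 j j' hjj hj hj' _ (bits_closed hfB)
    have hz : ∀ a ∈ B i, ∀ b ∈ B i, ∀ c ∈ B i, ∃ d ∈ B i, ∀ l, d.testBit l =
        ((a.testBit l ^^ b.testBit l) ^^ c.testBit l) := by
      intro a ha b hb c hc
      obtain ⟨d, hd, hdd⟩ := hcl _ ⟨a, ha, rfl⟩ _ ⟨b, hb, rfl⟩ _ ⟨c, hc, rfl⟩
      exact ⟨d, hd, fun l => by rw [← hdd]⟩
    have hcard : 2 ^ (n - (2 * m + 1)) ≤ ((B i ∩ Set.Iio (2 ^ n)).ncard) ^ 2 := by
      have h2 : m ^ 2 ≤ 2 ^ (2 * m) := by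
        rw [mul_comm, pow_mul]
        exact Nat.pow_le_pow_left (Nat.lt_two_pow_self).le 2
      have h4 : 2 ^ (n - 1) ≤ 2 ^ (2 * m) * ((B i ∩ Set.Iio (2 ^ n)).ncard) ^ 2 := by
        refine h1.trans ?_
        rw [mul_pow]
        exact Nat.mul_le_mul_right _ h2
      have h5 : 2 ^ (n - 1) = 2 ^ (2 * m) * 2 ^ (n - (2 * m + 1)) := by
        rw [← pow_add]
        congr 1
        omega
      rw [h5] at h4
      exact Nat.le_of_mul_le_mul_left h4 (by positivity)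
    obtain ⟨x, hx, hrep⟩ := main_xor hz n (2 * m + 1) hcard
    refine ⟨x, hx, ?_⟩
    have h4 : ((2 ^ ((n - 11 * (2 * m + 1)) / 16) : ℕ) : ℝ) ≤ (rep2 A x : ℝ) := by
      exact_mod_cast hrep.trans (rep2_mono hsub x)
    refine le_trans ?_ h4
    rw [Nat.cast_pow, Nat.cast_ofNat, ← Real.rpow_natCast 2 ((n - 11 * (2 * m + 1)) / 16)]
    refine Real.rpow_le_rpow_of_exponent_le (by norm_num) ?_
    have h5 : n ≤ 32 * ((n - 11 * (2 * m + 1)) / 16) := by omega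
    have h6 : (n : ℝ) ≤ 32 * (((n - 11 * (2 * m + 1)) / 16 : ℕ) : ℝ) := by exact_mod_cast h5
    have h7 : c * n ≤ 1 / 32 * n := mul_le_mul_of_nonneg_right (min_le_right _ _) (by positivity)
    linarith
  · refine (hi.and_eventually (H.and (eventually_ge_atTop (4 * 2 * (m + 1))))).mono ?_
    rintro n ⟨h1, h2, h3⟩
    obtain ⟨x, hx, hrep⟩ := h2 k f hf (B i) hfB (part_real le_rfl h1 h3)
    refine ⟨x, hx, ?_⟩
    have h4 : (2 : ℝ) ^ (c * n) ≤ (2 : ℝ) ^ (c' * n) := by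
      refine Real.rpow_le_rpow_of_exponent_le (by norm_num) ?_
      exact mul_le_mul_of_nonneg_right (min_le_left _ _) (by positivity)
    refine (h4.trans hrep).trans ?_
    exact_mod_cast rep2_mono hsub x

end Pool.Agent.H523R4.BC
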